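import Pool.Agent.W_448fs_h63.SF
import Pool.Agent.W_448fy_h63.YE

/-! Order of the window polynomial of a shifted shape (MP_448cb3_co). -/

namespace Pool.Agent.GaussPoset.Yg

set_option linter.unusedSectionVars false

open Finset

universe u

section shifted

variable {Q : Type u} [Fintype Q] [PartialOrder Q] [DecidableEq Q] {n w : ℕ}

/-- the polynomial `U_m` of a poset isomorphic to the cells of a shifted shape -/
theorem U_shift {lam : Fin n → ℕ} (h : StrictAnti lam)
    (e : Q ≃ {p : Fin n × Fin w // (p.2 : ℕ) < lam p.1})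
    (he : ∀ x y : Q, x ≤ y ↔ leS (e y : Fin n × Fin w) (e x)) (m : ℕ) :
    ((U Q m : Polynomial ℤ) : PowerSeries ℤ) = USg qq w m lam := by
  classical
  have h1 : ((U Q m : Polynomial ℤ) : PowerSeries ℤ) =
      ∑ σ ∈ univ.filter (fun σ : Q → Fin (m + 1) => Monotone σ), qq ^ (∑ x, (σ x : ℕ)) := by
    unfold U
    rw [← Polynomial.coeToPowerSeries.ringHom_apply, map_sum]
    refine sum_congr ?_ fun σ _ => ?_
    · ext σ
      simp
    · rw [map_pow]
      simp
  rw [h1]
  unfold USg
  refine sum_bij' (fun σ _ p => if hp : (p.2 : ℕ) < lam p.1 then (σ (e.symm ⟨p, hp⟩) : ℕ) else 0)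
    (fun f _ x => (⟨f (e x) % (m + 1), Nat.mod_lt _ (Nat.succ_pos m)⟩ : Fin (m + 1)))
    ?_ ?_ ?_ ?_ ?_
  · intro σ hσ
    rw [mem_filter] at hσ
    rw [mem_FS]
    refine ⟨fun p => ?_, fun p p' hp => ?_, fun p hp => ?_⟩
    · split_ifs with hp
      · have := (σ (e.symm ⟨p, hp⟩)).2
        omega
      · exact Nat.zero_le _
    · by_cases hp' : (p'.2 : ℕ) < lam p'.1
      · have h2 : (p.2 : ℕ) < lam p.1 := by
          have h3 := sa_add h (s := p.1) (s' := p'.1) hp.1
          have h4 := hp.2
          omega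
        rw [dif_pos hp', dif_pos h2]
        have h3 : e.symm ⟨p', hp'⟩ ≤ e.symm ⟨p, h2⟩ := by
          rw [he, Equiv.apply_symm_apply, Equiv.apply_symm_apply]
          exact hp
        exact hσ.2 h3
      · rw [dif_neg hp']
        exact Nat.zero_le _
    · rw [dif_neg (by omega)]
  · intro f hf
    rw [mem_FS] at hf
    rw [mem_filter]
    refine ⟨mem_univ _, fun x y hxy => ?_⟩
    rw [Fin.le_def]
    simp only
    rw [Nat.mod_eq_of_lt (by have := hf.1 (e x); omega),
      Nat.mod_eq_of_lt (by have := hf.1 (e y); omega)]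
    exact hf.2.1 _ _ ((he x y).1 hxy)
  · intro σ hσ
    funext x
    apply Fin.ext
    simp only
    rw [dif_pos (e x).2]
    have : e.symm ⟨(e x : Fin n × Fin w), (e x).2⟩ = x := e.symm_apply_apply x
    rw [this]
    exact Nat.mod_eq_of_lt (σ x).2
  · intro f hf
    rw [mem_FS] at hf
    funext p
    simp only
    split_ifs with hp
    · rw [Equiv.apply_symm_apply]
      have h3 := hf.1 p
      exact Nat.mod_eq_of_lt (show f p < m + 1 by omega)
    · exact (hf.2.2 p (by omega)).symm
  · intro σ hσ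
    congr 1
    have h2 : ∑ p : Fin n × Fin w, (if hp : (p.2 : ℕ) < lam p.1 then
        (σ (e.symm ⟨p, hp⟩) : ℕ) else 0) =
        ∑ p : {p : Fin n × Fin w // (p.2 : ℕ) < lam p.1}, (σ (e.symm p) : ℕ) := by
      have h3 : ∑ p : Fin n × Fin w, (if hp : (p.2 : ℕ) < lam p.1 then
          (σ (e.symm ⟨p, hp⟩) : ℕ) else 0) =
          ∑ p ∈ univ.filter (fun p : Fin n × Fin w => (p.2 : ℕ) < lam p.1),
          (if hp : (p.2 : ℕ) < lam p.1 then (σ (e.symm ⟨p, hp⟩) : ℕ) else 0) := by
        symm
        refine sum_subset (filter_subset _ _) fun p _ hp => ?_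
        rw [mem_filter, not_and] at hp
        rw [dif_neg (hp (mem_univ _))]
      rw [h3, Finset.sum_subtype (p := fun p : Fin n × Fin w => (p.2 : ℕ) < lam p.1) _
        (fun p => by rw [mem_filter]; simp)]
      refine sum_congr rfl fun p _ => ?_
      rw [dif_pos p.2]
    rw [h2]
    exact (Equiv.sum_comp e.symm (fun x => (σ x : ℕ))).symm

/-- the order of the window polynomial of a shifted shape -/
theorem shift_dvd {lam : Fin n → ℕ} (h : StrictAnti lam) (hn : ∀ s, lam s ≤ w)
    (e : Q ≃ {p : Fin n × Fin w // (p.2 : ℕ) < lam p.1})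
    (he : ∀ x y : Q, x ≤ y ↔ leS (e y : Fin n × Fin w) (e x)) {i : ℕ}
    (h1 : ∀ a, 1 ≤ lam a) (h2 : ∀ a : Fin n, i + 1 ≤ a + lam a) :
    (1 + Polynomial.X : Polynomial (PowerSeries ℤ)) ^ ((min n (i + 1) + 1) / 2) ∣ W Q i := by
  have hmon : ((1 + Polynomial.X : Polynomial (PowerSeries ℤ)) ^
      ((min n (i + 1) + 1) / 2)).Monic := by
    apply Polynomial.Monic.pow
    rw [add_comm]
    exact Polynomial.monic_X_add_C 1
  set φ := algebraMap (PowerSeries ℤ) (FractionRing (PowerSeries ℤ)) with hφ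
  have hφi : Function.Injective φ := IsFractionRing.injective _ _
  set q := φ qq with hqd
  have hq0 : q ≠ 0 := by
    rw [hqd, ne_eq, map_eq_zero_iff φ hφi]
    exact qq_ne
  have hq : ∀ j : ℕ, 1 - q ^ (j + 1) ≠ 0 := by
    intro j hj
    rw [hqd, ← map_pow, ← map_one φ, ← map_sub, map_eq_zero_iff φ hφi] at hj
    have h1 := congrArg (PowerSeries.constantCoeff (R := ℤ)) hj
    simp at h1
  have : CharZero (FractionRing (PowerSeries ℤ)) := by
    refine ⟨fun a b hab => ?_⟩
    rw [← map_natCast φ, ← map_natCast φ] at hab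
    have h1 := congrArg (PowerSeries.constantCoeff (R := ℤ)) (hφi hab)
    simpa using h1
  obtain ⟨P, hP⟩ := Psi_dvd hq0 hq h1 h2
  rw [← Polynomial.map_dvd_map φ hφi hmon]
  rw [Polynomial.map_pow, Polynomial.map_add, Polynomial.map_one, Polynomial.map_X]
  set k := (min n (i + 1) + 1) / 2 with hk
  have key : Polynomial.C (q ^ (∑ b : Fin n, (n - 1 - b))) * (W Q i).map φ =
      Polynomial.C (q ^ (i * Fintype.card Q)) *
        ((1 + Polynomial.X) ^ k * P.comp (-Polynomial.X)) := by
    apply Polynomial.eq_of_infinite_eval_eq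
    have hinj : Function.Injective (fun m : ℕ => φ (pt i m)) := by
      intro a b hab
      have hab2 := hφi hab
      unfold pt at hab2
      simp only [neg_inj] at hab2
      have := congrArg PowerSeries.order hab2
      rw [PowerSeries.order_X_pow, PowerSeries.order_X_pow] at this
      have h2 : i + a + 1 = i + b + 1 := by exact_mod_cast this
      omega
    refine Set.infinite_of_injective_forall_mem hinj fun m => ?_
    simp only [Set.mem_setOf_eq]
    have h3 : (W Q i).eval (pt i m) = qq ^ (i * Fintype.card Q) *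
        ((U Q m : Polynomial ℤ) : PowerSeries ℤ) := W_eval i m
    have h4 : ((W Q i).map φ).eval (φ (pt i m)) = φ ((W Q i).eval (pt i m)) := by
      rw [Polynomial.eval_map, Polynomial.eval₂_hom]
    have h5 : φ (USg qq w m lam) = USg q w m lam := by
      unfold USg
      rw [map_sum]
      exact sum_congr rfl fun f _ => by rw [map_pow]
    have h6 : φ (pt i m) = -q ^ (m + i + 1) := by
      unfold pt
      rw [map_neg, map_pow, hqd, show i + m + 1 = m + i + 1 by ring]
    have h7 := USg_eq q w _ n m lam h hn le_rfl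
    rw [Polynomial.eval_mul, Polynomial.eval_C, h4, h3, map_mul, map_pow, U_shift h e he m, h5,
      Polynomial.eval_mul, Polynomial.eval_C, Polynomial.eval_mul, Polynomial.eval_pow,
      Polynomial.eval_add, Polynomial.eval_one, Polynomial.eval_X, Polynomial.eval_comp,
      Polynomial.eval_neg, Polynomial.eval_X, h6, neg_neg, ← sub_eq_add_neg]
    have h8 := hP m
    rw [← h7] at h8
    linear_combination (q ^ (i * Fintype.card Q)) * h8
  have hu : IsUnit (Polynomial.C (q ^ (∑ b : Fin n, (n - 1 - b)))) :=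
    Polynomial.isUnit_C.2 (isUnit_iff_ne_zero.2 (pow_ne_zero _ hq0))
  rw [← hu.dvd_mul_left, key]
  exact Dvd.dvd.mul_left (Dvd.intro _ rfl) _

/-- coordinates in a shifted shape (the greatest cell is `(0,0)`, cells `(a,c)` with `a ≤ c`): if
every nonempty row `a ≤ i` contains the cell `(a,i)`, the row `2k-2` is nonempty and
`2k ≤ i + 2`, then the window polynomial at `i` has order at least `k`. -/
theorem shift_dvd_co (co : Q → ℕ × ℕ) (hinj : Function.Injective co)
    (hge : ∀ x, (co x).1 ≤ (co x).2) (hle : ∀ x y : Q, x ≤ y ↔ co y ≤ co x)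
    (hlow : ∀ x : Q, ∀ c ≤ co x, c.1 ≤ c.2 → ∃ y, co y = c) {i k : ℕ} (hk : 2 * k ≤ i + 2)
    (hrow : ∀ x : Q, (co x).1 ≤ i → ∃ y, co y = ((co x).1, i))
    (hcell : ∀ s, s + 2 = 2 * k → ∃ x, (co x).1 = s) :
    (1 + Polynomial.X : Polynomial (PowerSeries ℤ)) ^ k ∣ W Q i := by
  classical
  rcases Nat.eq_zero_or_pos k with rfl | hk0
  · rw [pow_zero]
    exact one_dvd _
  obtain ⟨x0, hx0⟩ := hcell (2 * k - 2) (by omega)
  set n := (univ : Finset Q).sup (fun x => (co x).1 + 1) with hn
  set w := (univ : Finset Q).sup (fun x => (co x).2 + 1) with hw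
  have hn1 : ∀ x : Q, (co x).1 < n := fun x =>
    Nat.lt_of_succ_le (le_sup (f := fun x : Q => (co x).1 + 1) (mem_univ x))
  have hw1 : ∀ x : Q, (co x).2 < w := fun x =>
    Nat.lt_of_succ_le (le_sup (f := fun x : Q => (co x).2 + 1) (mem_univ x))
  have hmax : ∃ x : Q, (co x).1 + 1 = n := by
    obtain ⟨x, -, hx⟩ := exists_mem_eq_sup (univ : Finset Q) ⟨x0, mem_univ _⟩
      (fun x => (co x).1 + 1)
    exact ⟨x, hx.symm⟩
  obtain ⟨xm, hxm⟩ := hmax
  let lam : Fin n → ℕ := fun s => ((range w).filter (fun c => ∃ x, co x = ((s : ℕ), (s : ℕ) + c))).card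
  have hfil : ∀ s : Fin n, ∀ c : ℕ, (∃ x, co x = ((s : ℕ), (s : ℕ) + c)) ↔ c < lam s := by
    intro s c
    have h1 : ∀ c c' : ℕ, c' ≤ c → (∃ x, co x = ((s : ℕ), (s : ℕ) + c)) →
        ∃ x, co x = ((s : ℕ), (s : ℕ) + c') := by
      rintro c c' hc ⟨x, hx⟩
      exact hlow x _ (by rw [hx]; exact ⟨le_rfl, by simp only; omega⟩) (by simp)
    constructor
    · intro h
      have h2 : range (c + 1) ⊆ (range w).filter (fun c => ∃ x, co x = ((s : ℕ), (s : ℕ) + c)) := by
        intro c' hc'
        rw [mem_range] at hc'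
        obtain ⟨x, hx⟩ := h1 c c' (by omega) h
        rw [mem_filter, mem_range]
        refine ⟨?_, x, hx⟩
        have := hw1 x
        rw [hx] at this
        simp only at this
        omega
      have h3 := card_le_card h2
      rw [card_range] at h3
      exact h3
    · intro h
      by_contra hcon
      have h2 : (range w).filter (fun c => ∃ x, co x = ((s : ℕ), (s : ℕ) + c)) ⊆ range c := by
        intro c' hc'
        rw [mem_filter] at hc'
        rw [mem_range]
        by_contra h3
        exact hcon (h1 c' c (by omega) hc'.2)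
      have h3 := card_le_card h2
      rw [card_range] at h3
      have h4 : lam s ≤ c := h3
      omega
  have hpos : ∀ s, 1 ≤ lam s := by
    intro s
    refine (hfil s 0).1 ?_
    refine hlow xm _ ?_ (by simp)
    have h1 := hge xm
    have h2 := s.2
    exact ⟨by simp only; omega, by simp only; omega⟩
  have hanti : StrictAnti lam := by
    intro s s' hs
    have h1 := hpos s'
    obtain ⟨x, hx⟩ := (hfil s' (lam s' - 1)).2 (by omega)
    have h2 : (s : ℕ) < s' := hs
    obtain ⟨y, hy⟩ := hlow x ((s : ℕ), (s : ℕ) + lam s') (by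
      rw [hx]
      exact ⟨by simp only; omega, by simp only; omega⟩) (by simp)
    exact (hfil s (lam s')).1 ⟨y, hy⟩
  have hlen : ∀ s, lam s ≤ w := by
    intro s
    have h1 := card_filter_le (range w) (fun c => ∃ x, co x = ((s : ℕ), (s : ℕ) + c))
    rw [card_range] at h1
    exact h1
  let toF : Q → {p : Fin n × Fin w // (p.2 : ℕ) < lam p.1} := fun x =>
    ⟨(⟨(co x).1, hn1 x⟩, ⟨(co x).2 - (co x).1, by have := hw1 x; omega⟩),
      (hfil ⟨(co x).1, hn1 x⟩ ((co x).2 - (co x).1)).1 ⟨x, by
        have := hge x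
        refine Prod.ext rfl ?_
        simp only
        omega⟩⟩
  have hbij : Function.Bijective toF := by
    constructor
    · intro x y hxy
      have h1 := congrArg (fun p => (p.1.1 : ℕ)) hxy
      have h2 := congrArg (fun p => (p.1.2 : ℕ)) hxy
      have h3 : (co x).1 = (co y).1 := h1
      have h4 : (co x).2 - (co x).1 = (co y).2 - (co y).1 := h2
      have h5 := hge x
      have h6 := hge y
      exact hinj (Prod.ext h3 (by omega))
    · rintro ⟨⟨s, c⟩, hp⟩
      obtain ⟨x, hx⟩ := (hfil s c).2 hp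
      refine ⟨x, ?_⟩
      apply Subtype.ext
      apply Prod.ext
      · apply Fin.ext
        change (co x).1 = s
        rw [hx]
      · apply Fin.ext
        change (co x).2 - (co x).1 = c
        rw [hx]
        simp
  have h2 : ∀ a : Fin n, i + 1 ≤ a + lam a := by
    intro a
    by_cases ha : (a : ℕ) ≤ i
    · obtain ⟨x, hx⟩ := (hfil a 0).2 (hpos a)
      obtain ⟨y, hy⟩ := hrow x (by rw [hx]; exact ha)
      have h3 := (hfil a (i - a)).1 ⟨y, by
        rw [hy, hx]
        refine Prod.ext rfl ?_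
        simp only
        omega⟩
      omega
    · have := hpos a
      omega
  have h3 := shift_dvd hanti hlen (Equiv.ofBijective toF hbij) (by
    intro x y
    rw [hle]
    have h5 := hge x
    have h6 := hge y
    constructor
    · intro h
      have h7 : (co y).1 ≤ (co x).1 := h.1
      have h8 : (co y).2 ≤ (co x).2 := h.2
      exact ⟨h7, by
        change (co y).1 + ((co y).2 - (co y).1) ≤ (co x).1 + ((co x).2 - (co x).1)
        omega⟩
    · intro h
      have h7 : (co y).1 ≤ (co x).1 := h.1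
      have h8 : (co y).1 + ((co y).2 - (co y).1) ≤ (co x).1 + ((co x).2 - (co x).1) := h.2
      exact ⟨h7, by omega⟩) hpos h2
  refine dvd_trans (pow_dvd_pow _ ?_) h3
  have h4 := hn1 x0
  omega

/-- the cell `(2 * (i / 2), i)` belongs to the shape (`(i,i)` for `i` even, `(i-1,i)` for `i`
odd): the window polynomial at `i` has order at least `i / 2 + 1` -/
theorem shift_dvd_cell (co : Q → ℕ × ℕ) (hinj : Function.Injective co)
    (hge : ∀ x, (co x).1 ≤ (co x).2) (hle : ∀ x y : Q, x ≤ y ↔ co y ≤ co x)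
    (hlow : ∀ x : Q, ∀ c ≤ co x, c.1 ≤ c.2 → ∃ y, co y = c) {i : ℕ}
    (hc : ∃ x, co x = (2 * (i / 2), i)) :
    (1 + Polynomial.X : Polynomial (PowerSeries ℤ)) ^ (i / 2 + 1) ∣ W Q i := by
  obtain ⟨x0, hx0⟩ := hc
  refine shift_dvd_co co hinj hge hle hlow (by omega) (fun x hx => ?_) (fun s hs => ?_)
  · by_cases h1 : (co x).1 ≤ 2 * (i / 2)
    · exact hlow x0 _ (by rw [hx0]; exact ⟨h1, le_rfl⟩) hx
    · have h2 : (co x).1 = i := by omega
      rw [h2]
      have h3 := hge x
      exact hlow x _ ⟨by simp only; omega, by simp only; omega⟩ le_rfl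
  · exact ⟨x0, by rw [hx0]; simp only; omega⟩

end shifted

end Pool.Agent.GaussPoset.Yg
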