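import Pool.Agent.W_448fy_h63.YB

/-! Shifted diagrams: the alternating sum `Psi` and its recursion (MP_448cb3_co). -/

namespace Pool.Agent.GaussPoset.Yg

set_option linter.unusedSectionVars false

open Finset Matrix

section alg

variable {R : Type*} [CommRing R] {n : ℕ}

/-- generating function of a row of length `k` whose first entry is `l - c` (without the first
entry); for `k = 0` the indicator of `l = c` -/
def GF (q : R) (k c l : ℕ) : R :=
  match k with
  | 0 => if l = c then 1 else 0
  | κ + 1 => if c ≤ l then qb q (l - c + κ) κ else 0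

lemma GF_zero (q : R) (c l : ℕ) : GF q 0 c l = if l = c then 1 else 0 := rfl

lemma GF_succ (q : R) (κ c l : ℕ) :
    GF q (κ + 1) c l = if c ≤ l then qb q (l - c + κ) κ else 0 := rfl

lemma GF_lt (q : R) (k c l : ℕ) (h : l < c) : GF q k c l = 0 := by
  cases k with
  | zero => rw [GF_zero, if_neg (by omega)]
  | succ κ => rw [GF_succ, if_neg (by omega)]

lemma GF_self (q : R) (k c : ℕ) : GF q k c c = 1 := by
  cases k with
  | zero => rw [GF_zero, if_pos rfl]
  | succ κ => rw [GF_succ, if_pos le_rfl, Nat.sub_self, Nat.zero_add, qb_self]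

lemma GF_shift (q : R) (k c l : ℕ) : GF q k (c + 1) (l + 1) = GF q k c l := by
  cases k with
  | zero =>
    rw [GF_zero, GF_zero]
    by_cases h : l = c
    · rw [if_pos h, if_pos (by omega)]
    · rw [if_neg h, if_neg (by omega)]
  | succ κ =>
    rw [GF_succ, GF_succ]
    by_cases h : c ≤ l
    · rw [if_pos h, if_pos (by omega), show l + 1 - (c + 1) = l - c by omega]
    · rw [if_neg h, if_neg (by omega)]

/-- removing the last cell of a row -/
lemma GF_sub (q : R) (κ c l : ℕ) :
    GF q (κ + 1) c (l + 1) - GF q κ c (l + 1) = q ^ κ * GF q (κ + 1) c l := by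
  cases κ with
  | zero =>
    rw [GF_succ, GF_succ, GF_zero, qb_zero, qb_zero, pow_zero, one_mul]
    rcases Nat.lt_trichotomy c (l + 1) with h | h | h
    · rw [if_pos h.le, if_neg (by omega), if_pos (by omega), sub_zero]
    · rw [if_pos h.le, if_pos h.symm, if_neg (by omega), sub_self]
    · rw [if_neg (by omega), if_neg (by omega), if_neg (by omega), sub_zero]
  | succ κ =>
    rw [GF_succ, GF_succ, GF_succ]
    rcases Nat.lt_trichotomy c (l + 1) with h | h | h
    · rw [if_pos h.le, if_pos h.le, if_pos (by omega),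
        show l + 1 - c + (κ + 1) = (l - c + (κ + 1)) + 1 by omega,
        show l + 1 - c + κ = l - c + (κ + 1) by omega, qb_succ]
      ring
    · rw [if_pos h.le, if_pos h.le, if_neg (by omega), h, Nat.sub_self, Nat.zero_add, Nat.zero_add,
        qb_self, qb_self]
      ring
    · rw [if_neg (by omega), if_neg (by omega), if_neg (by omega)]
      ring

lemma GF_sub_zero (q : R) (κ c : ℕ) : GF q (κ + 1) c 0 - GF q κ c 0 = 0 := by
  rcases Nat.eq_zero_or_pos c with rfl | hc
  · rw [GF_self, GF_self, sub_self]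
  · rw [GF_lt q _ c 0 hc, GF_lt q _ c 0 hc, sub_self]

/-- rows which end in a corner, shifted case -/
def corS (lam : Fin n → ℕ) : Finset (Fin n) :=
  univ.filter (fun s => 1 ≤ lam s ∧ ∀ h : (s : ℕ) + 1 < n, lam ⟨s + 1, h⟩ + 1 < lam s)

/-- the alternating sum -/
noncomputable def Psi (q : R) (n m : ℕ) (lam : Fin n → ℕ) : R := by
  classical exact
  ∑ l ∈ (univ : Finset (Fin n → Fin (m + n))).filter (fun l => StrictAnti l),
    q ^ (∑ b, (l b : ℕ)) * Matrix.det (Matrix.of fun a b : Fin n => GF q (lam a) (n - 1 - a) (l b))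

/-- the upper triangular matrix of the row operations, shifted case -/
def US (q : R) (lam : Fin n → ℕ) : Matrix (Fin n) (Fin n) R :=
  Matrix.of fun s u => if u = s then q ^ (lam s - 1) else
    if (u : ℕ) = s + 1 then (if s ∈ corS lam then 0 else 1) else 0

lemma det_US (q : R) (lam : Fin n → ℕ) : (US q lam).det = q ^ ∑ s, (lam s - 1) := by
  have h : (US q lam).BlockTriangular id := by
    intro a b hab
    rw [id, id, Fin.lt_def] at hab
    unfold US
    rw [Matrix.of_apply, if_neg (by rintro rfl; omega), if_neg (by omega)]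
  rw [Matrix.det_of_upperTriangular h, ← prod_pow_eq_pow_sum]
  refine prod_congr rfl fun s _ => ?_
  unfold US
  rw [Matrix.of_apply, if_pos rfl]

lemma corS_not {lam : Fin n → ℕ} (h : StrictAnti lam) (h1 : ∀ s, 1 ≤ lam s) {s : Fin n}
    (hs : s ∉ corS lam) : ∃ h : (s : ℕ) + 1 < n, lam s = lam ⟨s + 1, h⟩ + 1 := by
  unfold corS at hs
  rw [mem_filter, not_and, not_and] at hs
  have h2 := hs (mem_univ _) (h1 s)
  push Not at h2
  obtain ⟨h3, h4⟩ := h2
  refine ⟨h3, ?_⟩
  have h5 : lam ⟨s + 1, h3⟩ < lam s := h (by rw [Fin.lt_def]; simp)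
  omega

lemma row_relS (q : R) {lam : Fin n → ℕ} (h : StrictAnti lam) (h1 : ∀ s, 1 ≤ lam s) (s : Fin n)
    (l : ℕ) :
    GF q (lam s) (n - 1 - s) (l + 1) -
        (if s ∈ corS lam then GF q (lam s - 1) (n - 1 - s) (l + 1) else 0) =
      ∑ u, US q lam s u * GF q (lam u) (n - 1 - u) l := by
  have hsplit : ∑ u, US q lam s u * GF q (lam u) (n - 1 - u) l =
      q ^ (lam s - 1) * GF q (lam s) (n - 1 - s) l +
      (if hs : (s : ℕ) + 1 < n then (if s ∈ corS lam then 0 else
        GF q (lam ⟨s + 1, hs⟩) (n - 1 - (s + 1)) l) else 0) := by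
    rw [← add_sum_erase univ _ (mem_univ s)]
    congr 1
    · unfold US
      rw [Matrix.of_apply, if_pos rfl]
    · by_cases hs : (s : ℕ) + 1 < n
      · rw [dif_pos hs]
        rw [sum_eq_single (⟨(s : ℕ) + 1, hs⟩ : Fin n)]
        · unfold US
          rw [Matrix.of_apply, if_neg (by rw [Fin.ext_iff]; simp), if_pos rfl]
          split_ifs <;> ring
        · intro u hu hu2
          rw [mem_erase] at hu
          unfold US
          rw [Matrix.of_apply, if_neg hu.1, if_neg (by
            intro h1
            exact hu2 (Fin.ext h1)), zero_mul]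
        · intro h1
          exact absurd (mem_erase.2 ⟨by rw [ne_eq, Fin.ext_iff]; simp, mem_univ _⟩) h1
      · rw [dif_neg hs]
        refine sum_eq_zero fun u hu => ?_
        rw [mem_erase] at hu
        unfold US
        rw [Matrix.of_apply, if_neg hu.1, if_neg (by have := u.2; omega), zero_mul]
  rw [hsplit]
  have h2 := h1 s
  obtain ⟨κ, hκ⟩ : ∃ κ, lam s = κ + 1 := ⟨lam s - 1, by omega⟩
  have h3 := GF_sub q κ (n - 1 - s) l
  rw [hκ, Nat.add_sub_cancel]
  by_cases hc : s ∈ corS lam
  · simp only [if_pos hc]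
    split_ifs <;> linear_combination h3
  · obtain ⟨h4, h5⟩ := corS_not h h1 hc
    simp only [if_neg hc]
    rw [dif_pos h4, sub_zero]
    have h6 : lam ⟨s + 1, h4⟩ = κ := by omega
    have h7 := GF_shift q κ (n - 1 - (s + 1)) l
    rw [show n - 1 - ((s : ℕ) + 1) + 1 = n - 1 - s by omega] at h7
    rw [h6]
    linear_combination h3 + h7

lemma row_relS_zero (q : R) {lam : Fin n → ℕ} (h : StrictAnti lam) (h1 : ∀ s, 1 ≤ lam s)
    (s : Fin n) :
    GF q (lam s) (n - 1 - s) 0 -
        (if s ∈ corS lam then GF q (lam s - 1) (n - 1 - s) 0 else 0) = 0 := by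
  have h2 := h1 s
  obtain ⟨κ, hκ⟩ : ∃ κ, lam s = κ + 1 := ⟨lam s - 1, by omega⟩
  by_cases hc : s ∈ corS lam
  · rw [if_pos hc, hκ, Nat.add_sub_cancel, GF_sub_zero]
  · obtain ⟨h4, h5⟩ := corS_not h h1 hc
    rw [if_neg hc, GF_lt q _ _ 0 (by omega), sub_zero]

/-- expansion of the determinant of differences of rows -/
lemma det_diff (q : R) (lam : Fin n → ℕ) (C : Finset (Fin n)) (c : Fin n → ℕ) (l : Fin n → ℕ) :
    Matrix.det (Matrix.of fun s b : Fin n => GF q (lam s) (c s) (l b) -
        (if s ∈ C then GF q (lam s - 1) (c s) (l b) else 0)) =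
      ∑ T ∈ C.powerset, (-1) ^ T.card *
        Matrix.det (Matrix.of fun s b : Fin n => GF q (subT lam T s) (c s) (l b)) := by
  classical
  set a : Fin n → Fin n → R := fun s b => GF q (lam s) (c s) (l b) with ha
  set b : Fin n → Fin n → R := fun s b => if s ∈ C then -GF q (lam s - 1) (c s) (l b) else 0 with hb
  have h0 : (Matrix.of fun s b : Fin n => GF q (lam s) (c s) (l b) -
        (if s ∈ C then GF q (lam s - 1) (c s) (l b) else 0)) = Matrix.of (b + a) := by
    refine Matrix.ext fun s t => ?_
    rw [Matrix.of_apply, Matrix.of_apply, Pi.add_apply, Pi.add_apply, ha, hb]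
    by_cases hs : s ∈ C
    · simp only [if_pos hs]; ring
    · simp only [if_neg hs]; ring
  have h1 : Matrix.det (Matrix.of (b + a)) =
      ∑ T : Finset (Fin n), Matrix.det (Matrix.of (T.piecewise b a)) :=
    (Matrix.detRowAlternating (n := Fin n) (R := R)).toMultilinearMap.map_add_univ b a
  have h2 : ∀ T : Finset (Fin n), Matrix.det (Matrix.of (T.piecewise b a)) =
      if T ∈ C.powerset then (-1) ^ T.card *
        Matrix.det (Matrix.of fun s b : Fin n => GF q (subT lam T s) (c s) (l b)) else 0 := by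
    intro T
    by_cases hT : T ⊆ C
    · rw [if_pos (mem_powerset.2 hT)]
      have e1 : (Matrix.of (T.piecewise b a) : Matrix (Fin n) (Fin n) R) =
          Matrix.of (fun s t => (if s ∈ T then (-1 : R) else 1) *
            (Matrix.of fun s b : Fin n => GF q (subT lam T s) (c s) (l b)) s t) := by
        refine Matrix.ext fun s t => ?_
        rw [Matrix.of_apply, Matrix.of_apply, Matrix.of_apply]
        by_cases hs : s ∈ T
        · rw [Finset.piecewise_eq_of_mem _ _ _ hs, if_pos hs, hb]
          simp only [if_pos (hT hs)]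
          unfold subT
          rw [if_pos hs]
          ring
        · rw [Finset.piecewise_eq_of_notMem _ _ _ hs, if_neg hs, ha]
          unfold subT
          rw [if_neg hs]
          ring
      rw [e1, Matrix.det_mul_column]
      congr 1
      rw [Finset.prod_ite_mem, Finset.univ_inter, Finset.prod_const]
    · rw [if_neg (fun h3 => hT (mem_powerset.1 h3))]
      obtain ⟨s, hs, hs2⟩ := Finset.not_subset.1 hT
      refine Matrix.det_eq_zero_of_row_eq_zero s fun t => ?_
      rw [Matrix.of_apply, Finset.piecewise_eq_of_mem _ _ _ hs, hb]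
      simp only [if_neg hs2]
  rw [h0, h1, Finset.sum_congr rfl (fun T _ => h2 T), Finset.sum_ite_mem, Finset.univ_inter]

/-- the recursion of the alternating sum -/
theorem Psi_rec (q : R) {m : ℕ} {lam : Fin n → ℕ} (h : StrictAnti lam) (h1 : ∀ s, 1 ≤ lam s) :
    ∑ T ∈ (corS lam).powerset, (-1) ^ T.card * Psi q n (m + 1) (subT lam T) =
      q ^ (∑ s, lam s) * Psi q n m lam := by
  classical
  have e1 : ∑ T ∈ (corS lam).powerset, (-1) ^ T.card * Psi q n (m + 1) (subT lam T) =
      ∑ l ∈ (univ : Finset (Fin n → Fin (m + 1 + n))).filter (fun l => StrictAnti l),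
        q ^ (∑ b, (l b : ℕ)) * Matrix.det (Matrix.of fun s b : Fin n =>
          GF q (lam s) (n - 1 - s) (l b) -
          (if s ∈ corS lam then GF q (lam s - 1) (n - 1 - s) (l b) else 0)) := by
    unfold Psi
    simp only [mul_sum]
    rw [sum_comm]
    refine sum_congr rfl fun l _ => ?_
    rw [det_diff q lam (corS lam) (fun s => n - 1 - s) (fun b => (l b : ℕ)), mul_sum]
    refine sum_congr rfl fun T _ => ?_
    ring
  rw [e1]
  -- only the labels without zero contribute
  rw [← sum_filter_add_sum_filter_not _ (fun l : Fin n → Fin (m + 1 + n) => ∀ b, 1 ≤ (l b : ℕ))]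
  have e2 : ∑ l ∈ ((univ : Finset (Fin n → Fin (m + 1 + n))).filter (fun l => StrictAnti l)).filter
      (fun l => ¬ ∀ b, 1 ≤ (l b : ℕ)),
        q ^ (∑ b, (l b : ℕ)) * Matrix.det (Matrix.of fun s b : Fin n =>
          GF q (lam s) (n - 1 - s) (l b) -
          (if s ∈ corS lam then GF q (lam s - 1) (n - 1 - s) (l b) else 0)) = 0 := by
    refine sum_eq_zero fun l hl => ?_
    have hl2 := (mem_filter.1 hl).2
    push Not at hl2
    obtain ⟨b, hb⟩ := hl2
    rw [Matrix.det_eq_zero_of_column_eq_zero b, mul_zero]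
    intro s
    rw [Matrix.of_apply, show ((l b : ℕ)) = 0 by omega]
    exact row_relS_zero q h h1 s
  rw [e2, add_zero]
  unfold Psi
  rw [mul_sum]
  refine sum_bij' (fun l _ b => (⟨(l b : ℕ) - 1, by have := (l b).2; have := b.2; omega⟩ : Fin (m + n)))
    (fun l _ b => (⟨(l b : ℕ) + 1, by have := (l b).2; omega⟩ : Fin (m + 1 + n))) ?_ ?_ ?_ ?_ ?_
  · intro l hl
    rw [mem_filter, mem_filter] at hl
    rw [mem_filter]
    refine ⟨mem_univ _, fun a b hab => ?_⟩
    have h2 : (l b : ℕ) < l a := hl.1.2 hab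
    have h3 := hl.2 b
    rw [Fin.lt_def]
    simp only
    omega
  · intro l hl
    rw [mem_filter] at hl
    rw [mem_filter, mem_filter]
    refine ⟨⟨mem_univ _, fun a b hab => ?_⟩, fun b => by simp⟩
    have h2 : (l b : ℕ) < l a := hl.2 hab
    rw [Fin.lt_def]
    simp only
    omega
  · intro l hl
    rw [mem_filter, mem_filter] at hl
    funext b
    apply Fin.ext
    have h3 := hl.2 b
    simp only
    omega
  · intro l hl
    funext b
    apply Fin.ext
    simp
  · intro l hl
    rw [mem_filter, mem_filter] at hl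
    have h3 : (Matrix.of fun s b : Fin n => GF q (lam s) (n - 1 - s) (l b) -
          (if s ∈ corS lam then GF q (lam s - 1) (n - 1 - s) (l b) else 0)) =
        US q lam * (Matrix.of fun u b : Fin n => GF q (lam u) (n - 1 - u) ((l b : ℕ) - 1)) := by
      refine Matrix.ext fun s b => ?_
      rw [Matrix.mul_apply, Matrix.of_apply]
      simp only [Matrix.of_apply]
      rw [← row_relS q h h1 s ((l b : ℕ) - 1)]
      have h4 := hl.2 b
      rw [show (l b : ℕ) - 1 + 1 = l b by omega]
    rw [h3, Matrix.det_mul, det_US]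
    have h5 : ∑ b, (l b : ℕ) + ∑ s, (lam s - 1) = ∑ s, lam s + ∑ b, ((l b : ℕ) - 1) := by
      rw [← sum_add_distrib, ← sum_add_distrib]
      refine sum_congr rfl fun b _ => ?_
      have h6 := hl.2 b
      have h7 := h1 b
      omega
    simp only
    rw [← mul_assoc, ← mul_assoc, ← pow_add, ← pow_add, h5]

end alg

end Pool.Agent.GaussPoset.Yg
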