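import Pool.Agent.W_448fs_h63.SA

/-! Shifted diagrams: bound zero and empty last row of the alternating sum (MP_448cb3_co). -/

namespace Pool.Agent.GaussPoset.Yg

set_option linter.unusedSectionVars false

open Finset Matrix

section alg

variable {R : Type*} [CommRing R] {n : ℕ}

lemma anti_bounds {N : ℕ} {l : Fin n → Fin N} (hl : StrictAnti l) :
    (∀ b : Fin n, (l b : ℕ) + b + 1 ≤ N) ∧ ∀ b : Fin n, n ≤ (l b : ℕ) + b + 1 := by
  constructor
  · have key : ∀ k : ℕ, ∀ h : k < n, (l ⟨k, h⟩ : ℕ) + k + 1 ≤ N := by
      intro k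
      induction k with
      | zero =>
        intro h
        have := (l ⟨0, h⟩).2
        omega
      | succ k ih =>
        intro h
        have h1 := ih (by omega)
        have h2 : (l ⟨k + 1, h⟩ : ℕ) < l ⟨k, by omega⟩ := hl (by rw [Fin.lt_def]; simp)
        omega
    intro b
    exact key b b.2
  · have key : ∀ d : ℕ, ∀ k : ℕ, ∀ h : k < n, k + d + 1 = n → n ≤ (l ⟨k, h⟩ : ℕ) + k + 1 := by
      intro d
      induction d with
      | zero =>
        intro k h hk
        omega
      | succ d ih =>
        intro k h hk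
        have h1 := ih (k + 1) (by omega) (by omega)
        have h2 : (l ⟨k + 1, by omega⟩ : ℕ) < l ⟨k, h⟩ := hl (by rw [Fin.lt_def]; simp)
        omega
    intro b
    exact key (n - 1 - b) b b.2 (by have := b.2; omega)

/-- bound zero -/
theorem Psi_m0 (q : R) (lam : Fin n → ℕ) : Psi q n 0 lam = q ^ ∑ b : Fin n, (n - 1 - b) := by
  classical
  unfold Psi
  have h1 : (univ : Finset (Fin n → Fin (0 + n))).filter (fun l => StrictAnti l) =
      {fun b => ⟨n - 1 - b, by have := b.2; omega⟩} := by
    ext l
    rw [mem_filter, mem_singleton]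
    constructor
    · rintro ⟨-, h⟩
      have h2 := anti_bounds h
      funext b
      apply Fin.ext
      have h3 := h2.1 b
      have h4 := h2.2 b
      simp only
      omega
    · rintro rfl
      refine ⟨mem_univ _, fun a b hab => ?_⟩
      rw [Fin.lt_def] at hab ⊢
      have := b.2
      simp only
      omega
  rw [h1, sum_singleton]
  have h2 : Matrix.det (Matrix.of fun a b : Fin n => GF q (lam a) (n - 1 - a) (n - 1 - b)) = 1 := by
    have h : (Matrix.of fun a b : Fin n =>
        GF q (lam a) (n - 1 - a) (n - 1 - b)).BlockTriangular OrderDual.toDual := by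
      intro a b hab
      have hab2 : a < b := hab
      rw [Fin.lt_def] at hab2
      have := b.2
      rw [Matrix.of_apply, GF_lt q _ _ _ (by omega)]
    rw [Matrix.det_of_lowerTriangular _ h]
    refine prod_eq_one fun s _ => ?_
    rw [Matrix.of_apply, GF_self]
  simp only
  rw [h2, mul_one]

/-- an empty last row can be removed -/
theorem Psi_last (q : R) (m : ℕ) (lam : Fin (n + 1) → ℕ) (h0 : lam (Fin.last n) = 0) :
    Psi q (n + 1) m lam = q ^ n * Psi q n m (fun a => lam a.castSucc) := by
  classical
  unfold Psi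
  rw [← sum_filter_add_sum_filter_not _
    (fun l : Fin (n + 1) → Fin (m + (n + 1)) => (l (Fin.last n) : ℕ) = 0)]
  have e2 : ∑ l ∈ ((univ : Finset (Fin (n + 1) → Fin (m + (n + 1)))).filter
      (fun l => StrictAnti l)).filter (fun l => ¬ (l (Fin.last n) : ℕ) = 0),
      q ^ (∑ b, (l b : ℕ)) * Matrix.det (Matrix.of fun a b : Fin (n + 1) =>
        GF q (lam a) (n + 1 - 1 - a) (l b)) = 0 := by
    refine sum_eq_zero fun l hl => ?_
    rw [mem_filter, mem_filter] at hl
    have h1 := (anti_bounds hl.1.2).2
    rw [Matrix.det_eq_zero_of_row_eq_zero (Fin.last n), mul_zero]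
    intro b
    rw [Matrix.of_apply, h0, GF_zero, if_neg]
    rw [Fin.val_last, Nat.add_sub_cancel, Nat.sub_self]
    intro h2
    have h3 := h1 b
    have h4 := b.2
    have h5 : b = Fin.last n := Fin.ext (by rw [Fin.val_last]; omega)
    rw [h5] at h2
    exact hl.2 h2
  rw [e2, add_zero, mul_sum]
  refine sum_bij' (fun l _ b => (⟨(l b.castSucc : ℕ) - 1, by
      have := (l b.castSucc).2; have := b.2; omega⟩ : Fin (m + n)))
    (fun l _ b => (⟨if h : (b : ℕ) < n then (l ⟨b, h⟩ : ℕ) + 1 else 0, by
      split_ifs with h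
      · have := (l ⟨b, h⟩).2
        omega
      · omega⟩ : Fin (m + (n + 1)))) ?_ ?_ ?_ ?_ ?_
  · intro l hl
    rw [mem_filter, mem_filter] at hl
    rw [mem_filter]
    have h1 := (anti_bounds hl.1.2).2
    refine ⟨mem_univ _, fun a b hab => ?_⟩
    have h2 : (l b.castSucc : ℕ) < l a.castSucc := hl.1.2 (by
      rw [Fin.lt_def] at hab ⊢
      simpa using hab)
    have h3 := h1 b.castSucc
    have h4 := b.2
    rw [Fin.val_castSucc] at h3
    rw [Fin.lt_def]
    simp only
    omega
  · intro l hl
    rw [mem_filter] at hl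
    rw [mem_filter, mem_filter]
    refine ⟨⟨mem_univ _, fun a b hab => ?_⟩, ?_⟩
    · rw [Fin.lt_def] at hab ⊢
      simp only
      have hb := b.2
      rw [dif_pos (show (a : ℕ) < n by omega)]
      split_ifs with h
      · have h2 : (l ⟨b, h⟩ : ℕ) < l ⟨a, by omega⟩ := hl.2 (by rw [Fin.lt_def]; exact hab)
        omega
      · omega
    · simp
  · intro l hl
    rw [mem_filter, mem_filter] at hl
    have h1 := (anti_bounds hl.1.2).2
    funext b
    apply Fin.ext
    simp only
    split_ifs with h
    · have h3 := h1 b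
      have h5 : (⟨(b : ℕ), h⟩ : Fin n).castSucc = b := Fin.ext rfl
      rw [h5]
      omega
    · have h4 := b.2
      have h5 : b = Fin.last n := Fin.ext (by rw [Fin.val_last]; omega)
      rw [h5]
      exact hl.2.symm
  · intro l hl
    funext b
    apply Fin.ext
    simp
  · intro l hl
    rw [mem_filter, mem_filter] at hl
    have h1 := (anti_bounds hl.1.2).2
    have hpos : ∀ b : Fin n, 1 ≤ (l b.castSucc : ℕ) := by
      intro b
      have h3 := h1 b.castSucc
      rw [Fin.val_castSucc] at h3
      have := b.2
      omega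
    have h2 : Matrix.det (Matrix.of fun a b : Fin (n + 1) => GF q (lam a) (n + 1 - 1 - a) (l b)) =
        Matrix.det (Matrix.of fun a b : Fin n =>
          GF q (lam a.castSucc) (n - 1 - a) ((l b.castSucc : ℕ) - 1)) := by
      rw [Matrix.det_succ_row _ (Fin.last n), sum_eq_single (Fin.last n)]
      · rw [Matrix.of_apply, h0, hl.2, Fin.val_last, Nat.add_sub_cancel, Nat.sub_self, GF_self,
          ← two_mul, pow_mul, neg_one_sq, one_pow, one_mul, one_mul]
        congr 1
        refine Matrix.ext fun a b => ?_
        rw [Matrix.submatrix_apply, Matrix.of_apply, Matrix.of_apply, Fin.succAbove_last,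
          Fin.val_castSucc]
        have h3 := GF_shift q (lam a.castSucc) (n - 1 - a) ((l b.castSucc : ℕ) - 1)
        have h4 := hpos b
        have h5 := a.2
        rw [← h3]
        congr 1 <;> omega
      · intro b _ hb
        rw [Matrix.of_apply, h0, GF_zero, if_neg]
        · ring
        · rw [Fin.val_last, Nat.add_sub_cancel, Nat.sub_self]
          intro h3
          have h4 := h1 b
          have h5 := b.2
          exact hb (Fin.ext (by rw [Fin.val_last]; omega))
      · intro h
        exact absurd (mem_univ _) h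
    rw [h2, Fin.sum_univ_castSucc, hl.2, add_zero, ← mul_assoc, ← pow_add]
    congr 2
    have h6 : ∑ b : Fin n, (l b.castSucc : ℕ) = ∑ b : Fin n, (((l b.castSucc : ℕ) - 1) + 1) :=
      sum_congr rfl fun b _ => by have := hpos b; omega
    rw [h6, sum_add_distrib, sum_const, card_univ, Fintype.card_fin, smul_eq_mul, mul_one, add_comm]

lemma Psi_n0 (q : R) (m : ℕ) (lam : Fin 0 → ℕ) : Psi q 0 m lam = 1 := by
  classical
  unfold Psi
  have h1 : (univ : Finset (Fin 0 → Fin (m + 0))).filter (fun l => StrictAnti l) =
      {fun b => b.elim0} := by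
    ext l
    rw [mem_filter, mem_singleton]
    constructor
    · intro _
      exact Subsingleton.elim _ _
    · intro _
      exact ⟨mem_univ _, fun a => a.elim0⟩
  rw [h1, sum_singleton]
  simp

end alg

end Pool.Agent.GaussPoset.Yg
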