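import Pool.Agent.W_448fs_h63.SB
import Pool.Agent.W_448fy_h63.YC

/-! Plane partitions of a shifted shape and the alternating sum (MP_448cb3_co). -/

namespace Pool.Agent.GaussPoset.Yg

set_option linter.unusedSectionVars false

open Finset

section cnt

variable {n w : ℕ}

/-- order of the cells of a shifted shape: the second coordinate is the offset from the diagonal -/
def leS (p p' : Fin n × Fin w) : Prop :=
  (p.1 : ℕ) ≤ p'.1 ∧ (p.1 : ℕ) + p.2 ≤ (p'.1 : ℕ) + p'.2

open Classical in
/-- arrays with entries at most `m`, weakly decreasing, zero outside the shape -/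
noncomputable def FS (w m : ℕ) (lam : Fin n → ℕ) : Finset (Fin n × Fin w → ℕ) :=
  (Fintype.piFinset fun _ => range (m + 1)).filter
    (fun f => (∀ p p', leS p p' → f p' ≤ f p) ∧ ∀ p, lam p.1 ≤ p.2 → f p = 0)

lemma mem_FS {m : ℕ} {lam : Fin n → ℕ} {f : Fin n × Fin w → ℕ} :
    f ∈ FS w m lam ↔ (∀ p, f p ≤ m) ∧ (∀ p p', leS p p' → f p' ≤ f p) ∧
      ∀ p, lam p.1 ≤ p.2 → f p = 0 := by
  classical
  unfold FS
  rw [mem_filter, Fintype.mem_piFinset]
  simp only [mem_range, Nat.lt_succ_iff]

/-- generating function -/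
noncomputable def USg {R : Type*} [CommRing R] (q : R) (w m : ℕ) (lam : Fin n → ℕ) : R :=
  ∑ f ∈ FS w m lam, q ^ ∑ p, f p

variable {lam : Fin n → ℕ}

lemma corS_pos {s : Fin n} (hs : s ∈ corS lam) : 1 ≤ lam s := (mem_filter.1 hs).2.1

lemma sa_add (h : StrictAnti lam) {s s' : Fin n} (hs : s ≤ s') :
    (s' : ℕ) + lam s' ≤ s + lam s := by
  have key : ∀ d : ℕ, ∀ k : ℕ, ∀ h2 : k + d < n,
      (k + d) + lam ⟨k + d, h2⟩ ≤ k + lam ⟨k, by omega⟩ := by
    intro d
    induction d with
    | zero => intro k h2; exact le_rfl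
    | succ d ih =>
      intro k h2
      have h3 := ih k (by omega)
      have h4 : lam ⟨k + (d + 1), h2⟩ < lam ⟨k + d, by omega⟩ := h (by rw [Fin.lt_def]; simp)
      omega
  have h1 : (s : ℕ) ≤ s' := hs
  have h2 := key (s' - s) s (by have := s'.2; omega)
  have h3 : (⟨(s : ℕ) + (s' - s), by have := s'.2; omega⟩ : Fin n) = s' := Fin.ext (by
    simp only; omega)
  rw [h3] at h2
  have h4 : (⟨(s : ℕ), by omega⟩ : Fin n) = s := Fin.ext rfl
  rw [h4] at h2
  omega

open Classical in
/-- rows whose corner cell has entry zero -/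
noncomputable def ZrS (lam : Fin n → ℕ) (f : Fin n × Fin w → ℕ) : Finset (Fin n) :=
  (corS lam).filter (fun s => ∀ c : Fin w, (c : ℕ) + 1 = lam s → f (s, c) = 0)

lemma mem_FS_subT {m : ℕ} {T : Finset (Fin n)} (hT : T ⊆ corS lam)
    {f : Fin n × Fin w → ℕ} :
    f ∈ FS w m (subT lam T) ↔ f ∈ FS w m lam ∧ T ⊆ ZrS lam f := by
  rw [mem_FS, mem_FS]
  constructor
  · rintro ⟨h1, h2, h3⟩
    refine ⟨⟨h1, h2, fun p hp => h3 p ?_⟩, fun s hs => ?_⟩
    · unfold subT
      split_ifs <;> omega
    · unfold ZrS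
      rw [mem_filter]
      refine ⟨hT hs, fun c hc => h3 (s, c) ?_⟩
      unfold subT
      simp only [if_pos hs]
      omega
  · rintro ⟨⟨h1, h2, h3⟩, h4⟩
    refine ⟨h1, h2, fun p hp => ?_⟩
    by_cases hp2 : lam p.1 ≤ p.2
    · exact h3 p hp2
    · unfold subT at hp
      by_cases hs : p.1 ∈ T
      · have h5 := h4 hs
        unfold ZrS at h5
        rw [mem_filter] at h5
        rw [if_pos hs] at hp
        exact h5.2 p.2 (by omega)
      · rw [if_neg hs] at hp
        exact absurd hp hp2

/-- below every cell there is a corner cell -/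
lemma exists_corS (h1 : ∀ s, 1 ≤ lam s) (hn : ∀ s, lam s ≤ w) (p : Fin n × Fin w)
    (hp : (p.2 : ℕ) < lam p.1) :
    ∃ s ∈ corS lam, ∃ c : Fin w, (c : ℕ) + 1 = lam s ∧ leS p (s, c) := by
  classical
  set S : Finset (Fin n) := univ.filter (fun s => (p.1 : ℕ) + p.2 < s + lam s) with hS
  have hne : S.Nonempty := ⟨p.1, mem_filter.2 ⟨mem_univ _, by omega⟩⟩
  have h2 := S.max'_mem hne
  set s := S.max' hne with hs
  have h3 : (p.1 : ℕ) + p.2 < s + lam s := (mem_filter.1 h2).2
  have h4 : p.1 ≤ s := S.le_max' _ (mem_filter.2 ⟨mem_univ _, by omega⟩)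
  refine ⟨s, ?_, ⟨lam s - 1, by have := hn s; have := h1 s; omega⟩, by
    have := h1 s
    simp only; omega, ?_⟩
  · unfold corS
    rw [mem_filter]
    refine ⟨mem_univ _, h1 s, fun h5 => ?_⟩
    by_contra hcon
    have h6 : (⟨(s : ℕ) + 1, h5⟩ : Fin n) ∈ S := mem_filter.2 ⟨mem_univ _, by
      simp only; omega⟩
    have h7 := S.le_max' _ h6
    rw [← hs, Fin.le_def] at h7
    simp at h7
  · unfold leS
    have := h1 s
    refine ⟨h4, ?_⟩
    simp only
    omega

lemma ZrS_empty_iff (h1 : ∀ s, 1 ≤ lam s) (hn : ∀ s, lam s ≤ w) {m : ℕ}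
    {f : Fin n × Fin w → ℕ} (hf : f ∈ FS w m lam) :
    ZrS lam f = ∅ ↔ ∀ p : Fin n × Fin w, (p.2 : ℕ) < lam p.1 → 1 ≤ f p := by
  classical
  rw [mem_FS] at hf
  constructor
  · intro h p hp
    obtain ⟨s, hs, c, hc, hle⟩ := exists_corS h1 hn p hp
    by_contra hcon
    have h1 := hf.2.1 _ _ hle
    have h2 : s ∈ ZrS lam f := by
      unfold ZrS
      rw [mem_filter]
      refine ⟨hs, fun c' hc' => ?_⟩
      have : c' = c := Fin.ext (by omega)
      rw [this]
      omega
    rw [h] at h2
    exact absurd h2 (notMem_empty _)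
  · intro h
    rw [eq_empty_iff_forall_notMem]
    intro s hs
    unfold ZrS at hs
    rw [mem_filter] at hs
    have h1 := corS_pos hs.1
    have h2 := hn s
    have h3 := h (s, ⟨lam s - 1, by omega⟩) (by simp only; omega)
    have h4 := hs.2 ⟨lam s - 1, by omega⟩ (by simp only; omega)
    omega

variable {R : Type*} [CommRing R]

/-- the recursion for the generating function -/
theorem USg_rec (q : R) (h : StrictAnti lam) (h0 : ∀ s, 1 ≤ lam s) (hn : ∀ s, lam s ≤ w) (m : ℕ) :
    ∑ T ∈ (corS lam).powerset, (-1) ^ T.card * USg q w (m + 1) (subT lam T) =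
      q ^ (∑ s, lam s) * USg q w m lam := by
  classical
  have h1 : ∀ T ∈ (corS lam).powerset, (-1) ^ T.card * USg q w (m + 1) (subT lam T) =
      ∑ f ∈ FS w (m + 1) lam, (if T ⊆ ZrS lam f then (-1) ^ T.card * q ^ ∑ p, f p else 0) := by
    intro T hT
    rw [mem_powerset] at hT
    unfold USg
    rw [mul_sum, ← sum_filter]
    refine sum_congr ?_ fun _ _ => rfl
    ext f
    rw [mem_filter, mem_FS_subT hT]
  rw [sum_congr rfl h1, sum_comm]
  have h2 : ∀ f ∈ FS w (m + 1) lam, ∑ T ∈ (corS lam).powerset,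
      (if T ⊆ ZrS lam f then (-1) ^ T.card * q ^ ∑ p, f p else 0) =
      if ZrS lam f = ∅ then q ^ ∑ p, f p else 0 := by
    intro f _
    rw [← sum_filter]
    have e1 : (corS lam).powerset.filter (fun T => T ⊆ ZrS lam f) = (ZrS lam f).powerset := by
      ext T
      rw [mem_filter, mem_powerset, mem_powerset]
      refine ⟨fun h => h.2, fun h => ⟨h.trans ?_, h⟩⟩
      unfold ZrS
      exact filter_subset _ _
    rw [e1, ← sum_mul]
    have e2 := congrArg (Int.cast : ℤ → R) (sum_powerset_neg_one_pow_card (x := ZrS lam f))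
    rw [Int.cast_sum] at e2
    have e3 : ∑ T ∈ (ZrS lam f).powerset, ((-1 : R)) ^ T.card = if ZrS lam f = ∅ then 1 else 0 := by
      rw [show (if ZrS lam f = ∅ then (1 : R) else 0) =
        (((if ZrS lam f = ∅ then (1 : ℤ) else 0) : ℤ) : R) by split_ifs <;> simp, ← e2]
      refine sum_congr rfl fun T _ => ?_
      push_cast
      rfl
    rw [e3]
    split_ifs <;> simp
  rw [sum_congr rfl h2, ← sum_filter]
  unfold USg
  rw [mul_sum]
  refine sum_bij' (fun f _ p => f p - 1) (fun g _ p => if (p.2 : ℕ) < lam p.1 then g p + 1 else 0)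
    ?_ ?_ ?_ ?_ ?_
  · intro f hf
    rw [mem_filter] at hf
    obtain ⟨hf1, hf2⟩ := hf
    rw [mem_FS] at hf1 ⊢
    refine ⟨fun p => ?_, fun p p' hp => ?_, fun p hp => ?_⟩
    · have := hf1.1 p
      omega
    · have := hf1.2.1 _ _ hp
      omega
    · have := hf1.2.2 p hp
      omega
  · intro g hg
    rw [mem_FS] at hg
    have hmem : (fun p : Fin n × Fin w => if (p.2 : ℕ) < lam p.1 then g p + 1 else 0) ∈
        FS w (m + 1) lam := by
      rw [mem_FS]
      refine ⟨fun p => ?_, fun p p' hp => ?_, fun p hp => ?_⟩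
      · have := hg.1 p
        split_ifs <;> omega
      · have h3 := hg.2.1 _ _ hp
        have h4 := sa_add h (s := p.1) (s' := p'.1) hp.1
        have h5 := hp.2
        split_ifs <;> omega
      · rw [if_neg (by omega)]
    rw [mem_filter]
    refine ⟨hmem, (ZrS_empty_iff h0 hn hmem).2 fun p hp => ?_⟩
    rw [if_pos hp]
    omega
  · intro f hf
    rw [mem_filter] at hf
    obtain ⟨hf1, hf2⟩ := hf
    rw [ZrS_empty_iff h0 hn hf1] at hf2
    rw [mem_FS] at hf1
    funext p
    simp only
    by_cases hp : (p.2 : ℕ) < lam p.1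
    · rw [if_pos hp]
      have := hf2 p hp
      omega
    · rw [if_neg hp]
      have := hf1.2.2 p (by omega)
      omega
  · intro g hg
    rw [mem_FS] at hg
    funext p
    simp only
    by_cases hp : (p.2 : ℕ) < lam p.1
    · rw [if_pos hp]
      omega
    · rw [if_neg hp]
      have := hg.2.2 p (by omega)
      omega
  · intro f hf
    rw [mem_filter] at hf
    obtain ⟨hf1, hf2⟩ := hf
    rw [ZrS_empty_iff h0 hn hf1] at hf2
    rw [mem_FS] at hf1
    rw [← pow_add, ← sum_shape hn, ← sum_add_distrib]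
    congr 1
    refine sum_congr rfl fun p _ => ?_
    by_cases hp : (p.2 : ℕ) < lam p.1
    · rw [if_pos hp]
      have := hf2 p hp
      omega
    · rw [if_neg hp]
      have := hf1.2.2 p (by omega)
      omega

lemma FS_m0 (w : ℕ) (lam : Fin n → ℕ) : FS w 0 lam = {fun _ => 0} := by
  ext f
  rw [mem_FS, mem_singleton]
  constructor
  · rintro ⟨h1, -, -⟩
    funext p
    have := h1 p
    omega
  · rintro rfl
    exact ⟨fun _ => le_rfl, fun _ _ _ => le_rfl, fun _ _ => rfl⟩

lemma USg_m0 (q : R) (w : ℕ) (lam : Fin n → ℕ) : USg q w 0 lam = 1 := by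
  unfold USg
  rw [FS_m0]
  simp

lemma USg_n0 (q : R) (w m : ℕ) (lam : Fin 0 → ℕ) : USg q w m lam = 1 := by
  have h1 : FS w m lam = {fun _ => 0} := by
    ext f
    rw [mem_FS, mem_singleton]
    constructor
    · intro _
      funext p
      exact p.1.elim0
    · rintro rfl
      exact ⟨fun _ => Nat.zero_le _, fun _ _ _ => le_rfl, fun _ _ => rfl⟩
  unfold USg
  rw [h1]
  simp

/-- an empty last row can be removed -/
lemma USg_last (q : R) (w m : ℕ) (lam : Fin (n + 1) → ℕ) (h0 : lam (Fin.last n) = 0) :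
    USg q w m lam = USg q w m (fun a => lam a.castSucc) := by
  classical
  unfold USg
  refine sum_bij' (fun f _ p => f (p.1.castSucc, p.2))
    (fun g _ p => if h : (p.1 : ℕ) < n then g (⟨p.1, h⟩, p.2) else 0) ?_ ?_ ?_ ?_ ?_
  · intro f hf
    rw [mem_FS] at hf ⊢
    refine ⟨fun p => hf.1 _, fun p p' hp => hf.2.1 _ _ ?_, fun p hp => hf.2.2 _ hp⟩
    exact hp
  · intro g hg
    rw [mem_FS] at hg ⊢
    refine ⟨fun p => ?_, fun p p' hp => ?_, fun p hp => ?_⟩
    · split_ifs
      · exact hg.1 _
      · exact Nat.zero_le _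
    · have h1 := hp.1
      split_ifs with h2 h3
      · exact hg.2.1 _ _ hp
      · omega
      · exact Nat.zero_le _
      · exact le_rfl
    · split_ifs with h2
      · exact hg.2.2 _ hp
      · rfl
  · intro f hf
    rw [mem_FS] at hf
    funext p
    simp only
    split_ifs with h
    · rfl
    · have h1 : p.1 = Fin.last n := Fin.ext (by
        have := p.1.2
        rw [Fin.val_last]
        omega)
      refine (hf.2.2 p ?_).symm
      rw [h1, h0]
      exact Nat.zero_le _
  · intro g hg
    funext p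
    simp only
    rw [dif_pos (by simp)]
    rfl
  · intro f hf
    rw [mem_FS] at hf
    congr 1
    rw [Fintype.sum_prod_type, Fintype.sum_prod_type, Fin.sum_univ_castSucc]
    have h1 : ∑ x : Fin w, f (Fin.last n, x) = 0 := by
      refine sum_eq_zero fun x _ => hf.2.2 _ ?_
      simp only
      rw [h0]
      exact Nat.zero_le _
    rw [h1, add_zero]

lemma subT_sa (h : StrictAnti lam) {T : Finset (Fin n)} (hT : T ⊆ corS lam) :
    StrictAnti (subT lam T) := by
  intro s s' hs
  have h2 := h hs
  have h3 : subT lam T s' ≤ lam s' := subT_le s'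
  by_cases h4 : s ∈ T
  · have h5 := (mem_filter.1 (hT h4)).2
    have h6 : (s : ℕ) + 1 < n := by
      have h7 : (s : ℕ) < s' := hs
      have := s'.2
      omega
    have h7 := h5.2 h6
    have h8 : lam s' ≤ lam ⟨s + 1, h6⟩ := by
      refine h.antitone ?_
      rw [Fin.le_def]
      have h9 : (s : ℕ) < s' := hs
      simp only
      omega
    have h9 : subT lam T s = lam s - 1 := by
      unfold subT
      rw [if_pos h4]
    omega
  · have h9 : subT lam T s = lam s := by
      unfold subT
      rw [if_neg h4]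
    omega

lemma subT_sumS {T : Finset (Fin n)} (hT : T ⊆ corS lam) (hne : T ≠ ∅) :
    ∑ s, subT lam T s < ∑ s, lam s := by
  obtain ⟨s, hs⟩ := nonempty_iff_ne_empty.2 hne
  refine sum_lt_sum (fun i _ => subT_le i) ⟨s, mem_univ _, ?_⟩
  unfold subT
  rw [if_pos hs]
  have := corS_pos (hT hs)
  omega

/-- the generating function of the plane partitions of a shifted shape is the alternating sum -/
theorem USg_eq (q : R) (w : ℕ) : ∀ (N : ℕ) (n m : ℕ) (lam : Fin n → ℕ),
    StrictAnti lam → (∀ s, lam s ≤ w) → n + m + ∑ s, lam s ≤ N →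
    q ^ (∑ b : Fin n, (n - 1 - b)) * USg q w m lam = Psi q n m lam := by
  intro N
  induction N with
  | zero =>
    intro n m lam _ _ hN
    obtain rfl : m = 0 := by omega
    rw [USg_m0, Psi_m0, mul_one]
  | succ N ih =>
    intro n m lam h hn hN
    rcases Nat.eq_zero_or_pos m with rfl | hm
    · rw [USg_m0, Psi_m0, mul_one]
    obtain ⟨m, rfl⟩ : ∃ m', m = m' + 1 := ⟨m - 1, by omega⟩
    cases n with
    | zero => rw [USg_n0, Psi_n0, mul_one, univ_eq_empty, sum_empty, pow_zero]
    | succ n =>
      rcases Nat.eq_zero_or_pos (lam (Fin.last n)) with h0 | h0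
      · rw [USg_last q w _ lam h0, Psi_last q _ lam h0]
        have h1 : StrictAnti (fun a : Fin n => lam a.castSucc) := by
          intro a b hab
          refine h ?_
          rw [Fin.lt_def] at hab ⊢
          simpa using hab
        have h2 : ∑ s : Fin n, lam s.castSucc = ∑ s, lam s := by
          rw [Fin.sum_univ_castSucc, h0, add_zero]
        have h3 := ih n (m + 1) (fun a => lam a.castSucc) h1 (fun s => hn _) (by
          simp only [h2]
          omega)
        rw [← h3, ← mul_assoc, ← pow_add]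
        congr 2
        rw [Fin.sum_univ_castSucc, Fin.val_last, Nat.add_sub_cancel, Nat.sub_self, add_zero]
        have h4 : ∑ i : Fin n, (n - (i.castSucc : ℕ)) = ∑ i : Fin n, ((n - 1 - i) + 1) := by
          refine sum_congr rfl fun i _ => ?_
          have := i.2
          rw [Fin.val_castSucc]
          omega
        rw [h4, sum_add_distrib, sum_const, card_univ, Fintype.card_fin, smul_eq_mul, mul_one,
          add_comm]
      · have h1 : ∀ s, 1 ≤ lam s := by
          intro s
          have h2 := h.antitone (Fin.le_last s)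
          omega
        have e1 := USg_rec q h h1 hn m
        have e2 := Psi_rec q (m := m) h h1
        rw [← add_sum_erase _ _ (empty_mem_powerset (corS lam)), subT_empty] at e1 e2
        rw [card_empty, pow_zero, one_mul] at e1 e2
        have e4 := ih (n + 1) m lam h hn (by omega)
        have e3 : q ^ (∑ b : Fin (n + 1), (n + 1 - 1 - b)) * ∑ T ∈ (corS lam).powerset.erase ∅,
            (-1) ^ T.card * USg q w (m + 1) (subT lam T) =
            ∑ T ∈ (corS lam).powerset.erase ∅, (-1) ^ T.card * Psi q (n + 1) (m + 1) (subT lam T) := by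
          rw [mul_sum]
          refine sum_congr rfl fun T hT => ?_
          rw [mem_erase, mem_powerset] at hT
          have h2 := subT_sumS hT.2 hT.1
          rw [← ih (n + 1) (m + 1) (subT lam T) (subT_sa h hT.2)
            (fun s => (subT_le s).trans (hn s)) (by omega)]
          ring
        linear_combination (q ^ (∑ b : Fin (n + 1), (n + 1 - 1 - b))) * e1 - e2 +
          q ^ (∑ s, lam s) * e4 - e3

end cnt

end Pool.Agent.GaussPoset.Yg
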