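import Mathlib

/-! Sums over decreasing sequences in an anticommuting family (MP_448cb3_co). -/

namespace Pool.Agent.GaussPoset.Yg

set_option linter.unusedSectionVars false

open Finset

section ring

variable {A : Type*} [Ring A]

/-- sum over the strictly decreasing sequences of length `r` below `b` of the products -/
def SS (g : ℕ → A) : ℕ → ℕ → A
  | 0, _ => 1
  | _ + 1, 0 => 0
  | r + 1, b + 1 => SS g (r + 1) b + g b * SS g r b

lemma SS_zero (g : ℕ → A) (b : ℕ) : SS g 0 b = 1 := by
  cases b <;> rfl

lemma SS_succ_zero (g : ℕ → A) (r : ℕ) : SS g (r + 1) 0 = 0 := rfl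

lemma SS_succ (g : ℕ → A) (r b : ℕ) : SS g (r + 1) (b + 1) = SS g (r + 1) b + g b * SS g r b := rfl

lemma SS_lt (g : ℕ → A) : ∀ b r : ℕ, b < r → SS g r b = 0 := by
  intro b
  induction b with
  | zero =>
    intro r h
    obtain ⟨r, rfl⟩ : ∃ r', r = r' + 1 := ⟨r - 1, by omega⟩
    rfl
  | succ b ih =>
    intro r h
    obtain ⟨r, rfl⟩ : ∃ r', r = r' + 1 := ⟨r - 1, by omega⟩
    rw [SS_succ, ih _ (by omega), ih _ (by omega), mul_zero, add_zero]

/-- concatenation -/
lemma SS_add (g : ℕ → A) (t : ℕ) : ∀ b r : ℕ, SS g r (t + b) =
    ∑ c ∈ range (r + 1), SS (fun x => g (t + x)) c b * SS g (r - c) t := by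
  intro b
  induction b with
  | zero =>
    intro r
    rw [sum_range_succ']
    have h1 : ∑ c ∈ range r, SS (fun x => g (t + x)) (c + 1) 0 * SS g (r - (c + 1)) t = 0 :=
      sum_eq_zero fun c _ => by rw [SS_succ_zero, zero_mul]
    rw [h1, zero_add, SS_zero, one_mul, Nat.sub_zero, Nat.add_zero]
  | succ b ih =>
    intro r
    cases r with
    | zero =>
      rw [sum_range_one, SS_zero, SS_zero, SS_zero, one_mul]
    | succ r =>
      rw [← Nat.add_assoc, SS_succ, ih, ih, sum_range_succ' _ (r + 1), sum_range_succ' _ (r + 1)]
      rw [SS_zero, SS_zero, mul_sum]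
      rw [add_assoc, add_comm (1 * SS g (r + 1 - 0) t) _, ← add_assoc, ← sum_add_distrib]
      congr 1
      refine sum_congr rfl fun c _ => ?_
      rw [SS_succ, show r + 1 - (c + 1) = r - c by omega]
      noncomm_ring

/-- sum over strictly decreasing functions -/
lemma SS_eq (g : ℕ → A) : ∀ b r : ℕ, SS g r b =
    ∑ l ∈ (univ : Finset (Fin r → Fin b)).filter (fun l => ∀ a c, a < c → l c < l a),
      (List.ofFn (fun c => g (l c))).prod := by
  intro b
  induction b with
  | zero =>
    intro r
    cases r with
    | zero =>
      rw [SS_zero]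
      have h1 : (univ : Finset (Fin 0 → Fin 0)).filter (fun l => ∀ a c, a < c → l c < l a) =
          {fun a => a} := by
        ext l
        rw [mem_filter, mem_singleton]
        exact ⟨fun _ => Subsingleton.elim _ _, fun _ => ⟨mem_univ _, fun a => a.elim0⟩⟩
      rw [h1, sum_singleton, List.ofFn_zero, List.prod_nil]
    | succ r =>
      rw [SS_succ_zero]
      symm
      refine sum_eq_zero fun l _ => ?_
      exact (l 0).elim0
  | succ b ih =>
    intro r
    cases r with
    | zero =>
      rw [SS_zero]
      have h1 : (univ : Finset (Fin 0 → Fin (b + 1))).filter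
          (fun l => ∀ a c, a < c → l c < l a) = {fun a => a.elim0} := by
        ext l
        rw [mem_filter, mem_singleton]
        exact ⟨fun _ => Subsingleton.elim _ _, fun _ => ⟨mem_univ _, fun a => a.elim0⟩⟩
      rw [h1, sum_singleton, List.ofFn_zero, List.prod_nil]
    | succ r =>
      rw [SS_succ, ih, ih, ← sum_filter_add_sum_filter_not
        ((univ : Finset (Fin (r + 1) → Fin (b + 1))).filter (fun l => ∀ a c, a < c → l c < l a))
        (fun l => (l 0 : ℕ) < b)]
      congr 1
      · refine sum_bij' (fun l _ c => (l c).castSucc)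
          (fun l hl c => (⟨(l c : ℕ), by
            rw [mem_filter, mem_filter] at hl
            rcases eq_or_lt_of_le (Fin.zero_le c) with h | h
            · rw [← h]; exact hl.2
            · have h2 : (l c : ℕ) < l 0 := hl.1.2 0 c h
              have h3 := hl.2
              omega⟩ : Fin b)) ?_ ?_ ?_ ?_ ?_
        · intro l hl
          rw [mem_filter] at hl
          rw [mem_filter, mem_filter]
          refine ⟨⟨mem_univ _, fun a c hac => ?_⟩, (l 0).2⟩
          exact hl.2 a c hac
        · intro l hl
          rw [mem_filter, mem_filter] at hl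
          rw [mem_filter]
          exact ⟨mem_univ _, fun a c hac => hl.1.2 a c hac⟩
        · intro l hl
          rfl
        · intro l hl
          rfl
        · intro l hl
          rfl
      · rw [mul_sum]
        refine sum_bij' (fun l _ => Fin.cons (Fin.last b) (fun c => (l c).castSucc))
          (fun l hl c => (⟨(l c.succ : ℕ), by
            rw [mem_filter, mem_filter] at hl
            have h2 : (l c.succ : ℕ) < l 0 := hl.1.2 0 c.succ (Fin.succ_pos c)
            have h3 := (l 0).2
            omega⟩ : Fin b)) ?_ ?_ ?_ ?_ ?_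
        · intro l hl
          rw [mem_filter] at hl
          rw [mem_filter, mem_filter]
          refine ⟨⟨mem_univ _, fun a c => ?_⟩, by simp⟩
          refine Fin.cases ?_ (fun a => ?_) a
          · refine Fin.cases ?_ (fun c => ?_) c
            · intro h
              exact absurd h (lt_irrefl _)
            · intro _
              rw [Fin.cons_zero, Fin.cons_succ]
              exact Fin.castSucc_lt_last _
          · refine Fin.cases ?_ (fun c => ?_) c
            · intro h
              exact absurd h (Fin.not_lt_zero _)
            · intro h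
              rw [Fin.cons_succ, Fin.cons_succ]
              exact hl.2 a c (by simpa using h)
        · intro l hl
          rw [mem_filter, mem_filter] at hl
          rw [mem_filter]
          exact ⟨mem_univ _, fun a c hac => hl.1.2 a.succ c.succ (by simpa using hac)⟩
        · intro l hl
          rfl
        · intro l hl
          rw [mem_filter, mem_filter] at hl
          funext a
          refine Fin.cases ?_ (fun a => ?_) a
          · rw [Fin.cons_zero]
            apply Fin.ext
            have h2 := hl.2
            have h3 := (l 0).2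
            rw [Fin.val_last]
            omega
          · rw [Fin.cons_succ]
            rfl
        · intro l hl
          rw [List.ofFn_succ, List.prod_cons, Fin.cons_zero]
          rfl

/-- partial sums -/
def sg (g : ℕ → A) (b : ℕ) : A := ∑ x ∈ range b, g x

/-- sums over pairs -/
def pg (g : ℕ → A) (b : ℕ) : A := ∑ x ∈ range b, g x * sg g x

variable {g : ℕ → A} (h : ∀ x y, g x * g y = - (g y * g x)) (h0 : ∀ x, g x * g x = 0)

include h in
lemma sg_comm (b x : ℕ) : sg g b * g x = - (g x * sg g b) := by
  unfold sg
  rw [sum_mul, mul_sum, ← sum_neg_distrib]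
  exact sum_congr rfl fun y _ => h y x

include h h0 in
lemma sg_sq (b : ℕ) : sg g b * sg g b = 0 := by
  induction b with
  | zero => unfold sg; simp
  | succ b ih =>
    have h1 : sg g (b + 1) = sg g b + g b := by unfold sg; rw [sum_range_succ]
    have h2 := sg_comm h b b
    rw [h1]
    have h3 : (sg g b + g b) * (sg g b + g b) =
        sg g b * sg g b + (sg g b * g b + g b * sg g b) + g b * g b := by noncomm_ring
    rw [h3, ih, h0, h2]
    simp

include h in
lemma pg_comm (b x : ℕ) : pg g b * g x = g x * pg g b := by
  unfold pg
  rw [sum_mul, mul_sum]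
  refine sum_congr rfl fun y _ => ?_
  rw [mul_assoc, sg_comm h, mul_neg, ← mul_assoc, h y x, neg_mul, neg_neg, mul_assoc]

include h in
lemma pg_sg (b c : ℕ) : pg g b * sg g c = sg g c * pg g b := by
  unfold sg
  rw [sum_mul, mul_sum]
  exact sum_congr rfl fun y _ => pg_comm h b y

include h h0 in
/-- the two power formulas -/
lemma SS_pow (b : ℕ) : ∀ p : ℕ, (p.factorial : A) * SS g (2 * p) b = pg g b ^ p ∧
    (p.factorial : A) * SS g (2 * p + 1) b = sg g b * pg g b ^ p := by
  induction b with
  | zero =>
    intro p
    have h1 : sg g 0 = 0 := by unfold sg; simp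
    have h2 : pg g 0 = 0 := by unfold pg; simp
    rw [h1, h2]
    refine ⟨?_, by rw [SS_succ_zero]; simp⟩
    cases p with
    | zero => rw [Nat.mul_zero, SS_zero]; simp
    | succ p => rw [show 2 * (p + 1) = 2 * p + 1 + 1 by ring, SS_succ_zero]; simp
  | succ b ih =>
    have e1 : sg g (b + 1) = sg g b + g b := by unfold sg; rw [sum_range_succ]
    have e2 : pg g (b + 1) = pg g b + g b * sg g b := by unfold pg; rw [sum_range_succ]
    have hz0 : (g b * sg g b) * (g b * sg g b) = 0 := by
      have h1 := sg_comm h b b
      calc (g b * sg g b) * (g b * sg g b) = g b * (sg g b * g b) * sg g b := by noncomm_ring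
        _ = 0 := by
          rw [h1, mul_neg, neg_mul, ← mul_assoc (g b) (g b), h0, zero_mul, zero_mul, neg_zero]
    have hc : pg g b * (g b * sg g b) = (g b * sg g b) * pg g b := by
      rw [← mul_assoc, pg_comm h, mul_assoc, pg_sg h, mul_assoc]
    have hcp : ∀ p : ℕ, pg g b ^ p * (g b * sg g b) = (g b * sg g b) * pg g b ^ p := fun p =>
      ((show Commute (pg g b) (g b * sg g b) from hc).pow_left p).eq
    -- square zero expansion
    have L2 : ∀ p : ℕ, (pg g b + g b * sg g b) ^ (p + 1) =
        pg g b ^ (p + 1) + ((p + 1 : ℕ) : A) * ((g b * sg g b) * pg g b ^ p) := by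
      intro p
      induction p with
      | zero => simp
      | succ p ihp =>
        rw [pow_succ' _ (p + 1), ihp]
        have h1 : (pg g b + g b * sg g b) *
            (pg g b ^ (p + 1) + ((p + 1 : ℕ) : A) * ((g b * sg g b) * pg g b ^ p)) =
            pg g b * pg g b ^ (p + 1) + (g b * sg g b) * pg g b ^ (p + 1) +
            pg g b * (((p + 1 : ℕ) : A) * ((g b * sg g b) * pg g b ^ p)) +
            (g b * sg g b) * (((p + 1 : ℕ) : A) * ((g b * sg g b) * pg g b ^ p)) := by
          noncomm_ring
        rw [h1]
        have h2 : (g b * sg g b) * (((p + 1 : ℕ) : A) * ((g b * sg g b) * pg g b ^ p)) = 0 := by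
          rw [← mul_assoc, ← (Nat.cast_commute (p + 1) (g b * sg g b)).eq, mul_assoc,
            ← mul_assoc (g b * sg g b), hz0, zero_mul, mul_zero]
        have h3 : pg g b * (((p + 1 : ℕ) : A) * ((g b * sg g b) * pg g b ^ p)) =
            ((p + 1 : ℕ) : A) * ((g b * sg g b) * pg g b ^ (p + 1)) := by
          rw [← mul_assoc, ← (Nat.cast_commute (p + 1) (pg g b)).eq, mul_assoc,
            ← mul_assoc (pg g b), hc, mul_assoc (g b * sg g b), ← pow_succ']
        rw [h2, h3, add_zero, ← pow_succ' _ (p + 1)]
        push_cast
        noncomm_ring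
    have L1 : ∀ p : ℕ, (sg g b + g b) * (pg g b + g b * sg g b) ^ p =
        (sg g b + g b) * pg g b ^ p := by
      intro p
      have hk : (sg g b + g b) * (g b * sg g b) = 0 := by
        have h1 := sg_comm h b b
        have h2 := sg_sq h h0 b
        calc (sg g b + g b) * (g b * sg g b) = (sg g b * g b) * sg g b + (g b * g b) * sg g b := by
              noncomm_ring
          _ = 0 := by
              rw [h1, h0, neg_mul, mul_assoc, h2, mul_zero, zero_mul, neg_zero, add_zero]
      cases p with
      | zero => simp
      | succ p =>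
        rw [L2, mul_add]
        have h3 : (sg g b + g b) * (((p + 1 : ℕ) : A) * ((g b * sg g b) * pg g b ^ p)) = 0 := by
          rw [← mul_assoc, ← (Nat.cast_commute (p + 1) (sg g b + g b)).eq, mul_assoc,
            ← mul_assoc (sg g b + g b), hk, zero_mul, mul_zero]
        rw [h3, add_zero]
    intro p
    constructor
    · cases p with
      | zero => rw [Nat.mul_zero, SS_zero]; simp
      | succ p =>
        have i1 := (ih (p + 1)).1
        have i2 := (ih p).2
        rw [show 2 * (p + 1) = 2 * p + 1 + 1 by ring] at i1 ⊢
        rw [SS_succ, e2, L2, mul_add, i1, Nat.factorial_succ]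
        congr 1
        push_cast
        have h1 : ((p : A) + 1) * (p.factorial : A) * (g b * SS g (2 * p + 1) b) =
            ((p : A) + 1) * (g b * ((p.factorial : A) * SS g (2 * p + 1) b)) := by
          rw [mul_assoc, ← mul_assoc (p.factorial : A), (Nat.cast_commute p.factorial (g b)).eq,
            mul_assoc]
        rw [h1, i2, mul_assoc (g b)]
    · have i1 := (ih p).1
      have i2 := (ih p).2
      rw [SS_succ, e1, e2, L1, mul_add, i2, add_mul]
      congr 1
      rw [← mul_assoc, (Nat.cast_commute p.factorial (g b)).eq, mul_assoc, i1]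

end ring

end Pool.Agent.GaussPoset.Yg
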