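import Pool.Agent.W_448fs_h63.SD

/-! Functions which are polynomials in `q ^ b` with a zero at `q ^ b = 1` (MP_448cb3_co). -/

namespace Pool.Agent.GaussPoset.Yg

set_option linter.unusedSectionVars false

open Finset Polynomial

section span

variable {K : Type*} [Field K] {E : Type*} [Ring E] [Algebra K E]

/-- span of the functions `b ↦ (1 - q^b)^k P(q^b) e` -/
def GS (q : K) (E : Type*) [Ring E] [Algebra K E] (k : ℕ) : Submodule K (ℕ → E) :=
  Submodule.span K {G | ∃ (P : K[X]) (e : E), G = fun b => ((1 - q ^ b) ^ k * P.eval (q ^ b)) • e}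

/-- span of the functions `b ↦ q^b P(q^b) e` -/
def GX (q : K) (E : Type*) [Ring E] [Algebra K E] : Submodule K (ℕ → E) :=
  Submodule.span K {G | ∃ (P : K[X]) (e : E), G = fun b => (q ^ b * P.eval (q ^ b)) • e}

variable {q : K}

lemma GS_mem (k : ℕ) (P : K[X]) (e : E) :
    (fun b => ((1 - q ^ b) ^ k * P.eval (q ^ b)) • e) ∈ GS q E k :=
  Submodule.subset_span ⟨P, e, rfl⟩

lemma GX_mem (P : K[X]) (e : E) :
    (fun b => (q ^ b * P.eval (q ^ b)) • e) ∈ GX q E :=
  Submodule.subset_span ⟨P, e, rfl⟩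

lemma GS_const (e : E) : (fun _ => e) ∈ GS q E 0 := by
  have h := GS_mem (q := q) 0 (1 : K[X]) e
  simpa using h

lemma GS_mul {k l : ℕ} {F G : ℕ → E} (hF : F ∈ GS q E k) (hG : G ∈ GS q E l) :
    F * G ∈ GS q E (k + l) := by
  have h1 : F * G ∈ GS q E k * GS q E l := Submodule.mul_mem_mul hF hG
  unfold GS at h1
  rw [Submodule.span_mul_span] at h1
  refine Submodule.span_le.2 ?_ h1
  rintro _ ⟨_, ⟨P, e, rfl⟩, _, ⟨P', e', rfl⟩, rfl⟩
  have h2 := GS_mem (q := q) (k + l) (P * P') (e * e')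
  have h3 : (fun b => ((1 - q ^ b) ^ (k + l) * (P * P').eval (q ^ b)) • (e * e')) =
      (fun b => ((1 - q ^ b) ^ k * P.eval (q ^ b)) • e) *
      (fun b => ((1 - q ^ b) ^ l * P'.eval (q ^ b)) • e') := by
    funext b
    rw [Pi.mul_apply, smul_mul_smul_comm, eval_mul, pow_add]
    congr 1
    ring
  rw [h3] at h2
  exact h2

lemma GX_mul {F G : ℕ → E} (hF : F ∈ GX q E) (hG : G ∈ GS q E 0) :
    F * G ∈ GX q E := by
  have h1 : F * G ∈ GX q E * GS q E 0 := Submodule.mul_mem_mul hF hG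
  unfold GS GX at h1
  rw [Submodule.span_mul_span] at h1
  refine Submodule.span_le.2 ?_ h1
  rintro _ ⟨_, ⟨P, e, rfl⟩, _, ⟨P', e', rfl⟩, rfl⟩
  have h2 := GX_mem (q := q) (P * P') (e * e')
  have h3 : (fun b => (q ^ b * (P * P').eval (q ^ b)) • (e * e')) =
      (fun b => (q ^ b * P.eval (q ^ b)) • e) *
      (fun b => ((1 - q ^ b) ^ 0 * P'.eval (q ^ b)) • e') := by
    funext b
    rw [Pi.mul_apply, smul_mul_smul_comm, eval_mul]
    congr 1
    ring
  rw [h3] at h2
  exact h2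

lemma GS_mono {k l : ℕ} (hkl : k ≤ l) : GS q E l ≤ GS q E k := by
  unfold GS
  rw [Submodule.span_le]
  rintro _ ⟨P, e, rfl⟩
  refine Submodule.subset_span ⟨(1 - X) ^ (l - k) * P, e, ?_⟩
  funext b
  rw [eval_mul, eval_pow, eval_sub, eval_one, eval_X, ← mul_assoc, ← pow_add,
    show k + (l - k) = l by omega]

lemma GS_pow {k : ℕ} {F : ℕ → E} (hF : F ∈ GS q E k) : ∀ p : ℕ, F ^ p ∈ GS q E (k * p) := by
  intro p
  induction p with
  | zero =>
    rw [pow_zero, Nat.mul_zero]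
    exact GS_const (1 : E)
  | succ p ih =>
    rw [pow_succ, Nat.mul_succ]
    exact GS_mul ih hF

lemma GS_apply (φ : E →ₗ[K] K) {k : ℕ} {F : ℕ → E} (hF : F ∈ GS q E k) :
    ∃ P : K[X], ∀ b, φ (F b) = (1 - q ^ b) ^ k * P.eval (q ^ b) := by
  unfold GS at hF
  induction hF using Submodule.span_induction with
  | mem x hx =>
    obtain ⟨P, e, rfl⟩ := hx
    refine ⟨C (φ e) * P, fun b => ?_⟩
    rw [map_smul, smul_eq_mul, eval_mul, eval_C]
    ring
  | zero => exact ⟨0, fun b => by simp⟩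
  | add x y hx hy hx2 hy2 =>
    obtain ⟨P, hP⟩ := hx2
    obtain ⟨P', hP'⟩ := hy2
    refine ⟨P + P', fun b => ?_⟩
    rw [Pi.add_apply, map_add, hP, hP', eval_add]
    ring
  | smul a x hx hx2 =>
    obtain ⟨P, hP⟩ := hx2
    refine ⟨C a * P, fun b => ?_⟩
    rw [Pi.smul_apply, map_smul, hP, smul_eq_mul, eval_mul, eval_C]
    ring

variable (hq : ∀ j : ℕ, 1 - q ^ (j + 1) ≠ 0)

include hq in
lemma geo (P : K[X]) : ∃ Q : K[X], ∀ b : ℕ, ∑ x ∈ range b, q ^ x * P.eval (q ^ x) =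
    (1 - q ^ b) * Q.eval (q ^ b) := by
  induction P using Polynomial.induction_on' with
  | add P P' h1 h2 =>
    obtain ⟨Q, hQ⟩ := h1
    obtain ⟨Q', hQ'⟩ := h2
    refine ⟨Q + Q', fun b => ?_⟩
    rw [eval_add, mul_add, ← hQ, ← hQ', ← sum_add_distrib]
    refine sum_congr rfl fun x _ => ?_
    rw [eval_add, mul_add]
  | monomial j c =>
    refine ⟨C (c * (1 - q ^ (j + 1))⁻¹) * ∑ u ∈ range (j + 1), X ^ u, fun b => ?_⟩
    rw [eval_mul, eval_C, eval_finset_sum]
    simp only [eval_pow, eval_X, eval_monomial]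
    have h1 : ∑ x ∈ range b, q ^ x * (c * (q ^ x) ^ j) =
        c * ∑ x ∈ range b, (q ^ (j + 1)) ^ x := by
      rw [mul_sum]
      refine sum_congr rfl fun x _ => ?_
      rw [← pow_mul, ← pow_mul, mul_left_comm, ← pow_add]
      congr 2
      ring
    have h2 : (∑ x ∈ range b, (q ^ (j + 1)) ^ x) * (q ^ (j + 1) - 1) = (q ^ (j + 1)) ^ b - 1 :=
      geom_sum_mul _ _
    have h3 : (∑ u ∈ range (j + 1), (q ^ b) ^ u) * (q ^ b - 1) = (q ^ b) ^ (j + 1) - 1 :=
      geom_sum_mul _ _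
    have h4 : (q ^ (j + 1)) ^ b = (q ^ b) ^ (j + 1) := by
      rw [← pow_mul, ← pow_mul, mul_comm]
    rw [h1]
    have h5 := hq j
    have h6 : (∑ x ∈ range b, (q ^ (j + 1)) ^ x) =
        (1 - q ^ (j + 1))⁻¹ * ((1 - q ^ b) * ∑ u ∈ range (j + 1), (q ^ b) ^ u) := by
      rw [eq_inv_mul_iff_mul_eq₀ h5]
      linear_combination -h2 + h3 - h4
    rw [h6]
    ring

include hq in
lemma sg_mem {g : ℕ → E} (hg : g ∈ GX q E) : (fun b => ∑ x ∈ range b, g x) ∈ GS q E 1 := by
  unfold GX at hg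
  induction hg using Submodule.span_induction with
  | mem x hx =>
    obtain ⟨P, e, rfl⟩ := hx
    obtain ⟨Q, hQ⟩ := geo hq P
    have h1 := GS_mem (q := q) 1 Q e
    have h2 : (fun b => ∑ x ∈ range b, (q ^ x * P.eval (q ^ x)) • e) =
        fun b => ((1 - q ^ b) ^ 1 * Q.eval (q ^ b)) • e := by
      funext b
      rw [pow_one, ← hQ, sum_smul]
    rw [h2]
    exact h1
  | zero =>
    have h1 : (fun b => ∑ x ∈ range b, (0 : ℕ → E) x) = 0 := by
      funext b
      simp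
    rw [h1]
    exact Submodule.zero_mem _
  | add x y hx hy hx2 hy2 =>
    have h1 : (fun b => ∑ z ∈ range b, (x + y) z) =
        (fun b => ∑ z ∈ range b, x z) + fun b => ∑ z ∈ range b, y z := by
      funext b
      rw [Pi.add_apply, ← sum_add_distrib]
      rfl
    rw [h1]
    exact Submodule.add_mem _ hx2 hy2
  | smul a x hx hx2 =>
    have h1 : (fun b => ∑ z ∈ range b, (a • x) z) = a • fun b => ∑ z ∈ range b, x z := by
      funext b
      rw [Pi.smul_apply, smul_sum]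
      rfl
    rw [h1]
    exact Submodule.smul_mem _ _ hx2

variable {g : ℕ → E}

include hq in
lemma pg_mem (hg : g ∈ GX q E) : pg g ∈ GS q E 1 := by
  have h1 : sg g ∈ GS q E 1 := sg_mem hq hg
  have h2 := GX_mul hg (GS_mono (Nat.zero_le 1) h1)
  exact sg_mem hq h2

variable [CharZero K] (h : ∀ x y, g x * g y = - (g y * g x)) (h0 : ∀ x, g x * g x = 0)

include hq h h0 in
/-- the sums over decreasing sequences of length `r` have order at least `(r + 1) / 2` -/
theorem SS_mem (hg : g ∈ GX q E) (r : ℕ) : SS g r ∈ GS q E ((r + 1) / 2) := by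
  obtain ⟨p, hp⟩ : ∃ p, r = 2 * p ∨ r = 2 * p + 1 := ⟨r / 2, by omega⟩
  have hf : (p.factorial : K) ≠ 0 := by exact_mod_cast p.factorial_ne_zero
  have hpp := GS_pow (pg_mem hq hg) p
  have key : ∀ x y : E, (p.factorial : E) * x = y → x = (p.factorial : K)⁻¹ • y := by
    intro x y hxy
    rw [← hxy]
    have h1 : (p.factorial : E) * x = (p.factorial : K) • x := by
      rw [Algebra.smul_def, map_natCast]
    rw [h1, smul_smul, inv_mul_cancel₀ hf, one_smul]
  rcases hp with rfl | rfl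
  · have h1 : SS g (2 * p) = (p.factorial : K)⁻¹ • (pg g ^ p) := by
      funext b
      rw [Pi.smul_apply, Pi.pow_apply]
      exact key _ _ (SS_pow h h0 b p).1
    rw [h1, show (2 * p + 1) / 2 = 1 * p by omega]
    exact Submodule.smul_mem _ _ hpp
  · have h1 : SS g (2 * p + 1) = (p.factorial : K)⁻¹ • (sg g * pg g ^ p) := by
      funext b
      rw [Pi.smul_apply, Pi.mul_apply, Pi.pow_apply]
      exact key _ _ (SS_pow h h0 b p).2
    rw [h1, show (2 * p + 1 + 1) / 2 = 1 + 1 * p by omega]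
    exact Submodule.smul_mem _ _ (GS_mul (sg_mem hq hg) hpp)

end span

end Pool.Agent.GaussPoset.Yg
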