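import Pool.Agent.W_448fs_h63.SC
import Pool.Agent.W_448fs_h63.SE

/-! The alternating sum as a polynomial in the window variable (MP_448cb3_co). -/

namespace Pool.Agent.GaussPoset.Yg

set_option linter.unusedSectionVars false

open Finset Polynomial

section fac

variable {K : Type*} [Field K]

/-- the exponential polynomial of a row -/
noncomputable def rowP (q : K) (i a k : ℕ) : K[X] :=
  ∏ u ∈ range k, (C ((1 - q ^ (u + 1))⁻¹) * (1 - C (q ^ ((a : ℤ) + u + 1 - i)) * X))

variable {q : K}

lemma rowP_eval (i a k x : ℕ) : (rowP q i a k).eval (q ^ x) =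
    ∏ u ∈ range k, ((1 - q ^ (u + 1))⁻¹ * (1 - q ^ ((a : ℤ) + u + 1 - i) * q ^ x)) := by
  unfold rowP
  rw [eval_prod]
  refine prod_congr rfl fun u _ => ?_
  rw [eval_mul, eval_C, eval_sub, eval_one, eval_mul, eval_C, eval_X]

variable (hq0 : q ≠ 0) (hq : ∀ j : ℕ, 1 - q ^ (j + 1) ≠ 0)

include hq0 in
lemma rowP_zero {i a k x : ℕ} (h1 : x + a < i) (h2 : i ≤ a + k) :
    (rowP q i a k).eval (q ^ x) = 0 := by
  rw [rowP_eval]
  refine prod_eq_zero (i := i - 1 - a - x) (mem_range.2 (by omega)) ?_
  rw [← zpow_natCast q x, ← zpow_add₀ hq0]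
  have h3 : (a : ℤ) + ((i - 1 - a - x : ℕ) : ℤ) + 1 - i + x = 0 := by omega
  rw [h3, zpow_zero, sub_self, mul_zero]

include hq0 hq in
lemma rowP_GF {n i a k x l : ℕ} (ha : a < n) (h2 : i ≤ a + k) (hl : l + (i + 1) = n + x) :
    GF q (k + 1) (n - 1 - a) l = (rowP q i a k).eval (q ^ x) := by
  by_cases hc : l < n - 1 - a
  · rw [GF_lt q _ _ _ hc, rowP_zero hq0 (by omega) h2]
  · rw [GF_succ, if_pos (by omega), rowP_eval]
    have hne : ∏ u ∈ range k, (1 - q ^ (u + 1)) ≠ 0 := prod_ne_zero_iff.2 fun u _ => hq u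
    have h3 := qb_prod q (l - (n - 1 - a) + k) k
    have h4 : ∏ u ∈ range k, (1 - q ^ (l - (n - 1 - a) + k - u)) =
        ∏ u ∈ range k, (1 - q ^ ((a : ℤ) + u + 1 - i) * q ^ x) := by
      rw [← prod_range_reflect]
      refine prod_congr rfl fun u hu => ?_
      rw [mem_range] at hu
      rw [← zpow_natCast q x, ← zpow_add₀ hq0, ← zpow_natCast q (l - (n - 1 - a) + k - _)]
      congr 2
      omega
    rw [h4] at h3
    rw [prod_mul_distrib, prod_inv_distrib, ← h3, mul_comm (qb _ _ _), inv_mul_cancel_left₀ hne]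

end fac

section ext

variable {K : Type*} [Field K] [CharZero K] {n : ℕ}

/-- the vector of the row values at the label `l` -/
noncomputable def fv (q : K) (lam : Fin n → ℕ) (l : ℕ) : Fin n → K :=
  fun a => q ^ l * GF q (lam a) (n - 1 - a) l

/-- the shifted vector -/
noncomputable def gv (q : K) (i : ℕ) (lam : Fin n → ℕ) (x : ℕ) : Fin n → K :=
  fun a => q ^ x * (rowP q i a (lam a - 1)).eval (q ^ x)

/-- the family in the exterior algebra -/
noncomputable def io (v : ℕ → Fin n → K) (x : ℕ) : ExteriorAlgebra K (Fin n → K) :=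
  ExteriorAlgebra.ι K (v x)

lemma io_anti (v : ℕ → Fin n → K) (x y : ℕ) : io v x * io v y = - (io v y * io v x) :=
  eq_neg_of_add_eq_zero_left (ExteriorAlgebra.ι_add_mul_swap _ _)

lemma io_sq (v : ℕ → Fin n → K) (x : ℕ) : io v x * io v x = 0 := ExteriorAlgebra.ι_sq_zero _

lemma gv_mem (q : K) (i : ℕ) (lam : Fin n → ℕ) :
    io (gv q i lam) ∈ GX q (ExteriorAlgebra K (Fin n → K)) := by
  have h1 : io (gv q i lam) = ∑ a : Fin n, fun x => (q ^ x * (rowP q i a (lam a - 1)).eval (q ^ x)) •
      ExteriorAlgebra.ι K (Pi.single a (1 : K)) := by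
    funext x
    rw [Finset.sum_apply]
    unfold io
    have h2 : gv q i lam x = ∑ a : Fin n, (q ^ x * (rowP q i a (lam a - 1)).eval (q ^ x)) •
        (Pi.single a (1 : K) : Fin n → K) := by
      funext b
      rw [Finset.sum_apply, Finset.sum_eq_single b]
      · rw [Pi.smul_apply, Pi.single_eq_same, smul_eq_mul, mul_one]
        rfl
      · intro c _ hc
        rw [Pi.smul_apply, Pi.single_eq_of_ne hc.symm, smul_zero]
      · intro h
        exact absurd (mem_univ _) h
    rw [h2, map_sum]
    refine sum_congr rfl fun a _ => ?_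
    rw [map_smul]
  rw [h1]
  exact Submodule.sum_mem _ fun a _ => GX_mem _ _

/-- scaling -/
lemma SS_smul {E : Type*} [Ring E] [Algebra K E] (c : K) (g : ℕ → E) : ∀ b r : ℕ,
    SS (fun x => c • g x) r b = c ^ r • SS g r b := by
  intro b
  induction b with
  | zero =>
    intro r
    cases r with
    | zero => rw [SS_zero, SS_zero, pow_zero, one_smul]
    | succ r => rw [SS_succ_zero, SS_succ_zero, smul_zero]
  | succ b ih =>
    intro r
    cases r with
    | zero => rw [SS_zero, SS_zero, pow_zero, one_smul]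
    | succ r =>
      rw [SS_succ, SS_succ, ih, ih, smul_add, smul_mul_smul_comm, ← pow_succ']

lemma SS_vanish {E : Type*} [Ring E] (g : ℕ → E) : ∀ b r : ℕ, (∀ x < b, g x = 0) →
    SS g (r + 1) b = 0 := by
  intro b
  induction b with
  | zero => intro r _; rfl
  | succ b ih =>
    intro r h
    rw [SS_succ, ih r (fun x hx => h x (by omega)), h b (by omega), zero_mul, add_zero]

variable {q : K} (hq0 : q ≠ 0) (hq : ∀ j : ℕ, 1 - q ^ (j + 1) ≠ 0)

include hq0 hq in
/-- the sum over all labels as a function of the window variable -/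
theorem SS_full {i : ℕ} {lam : Fin n → ℕ} (h1 : ∀ a, 1 ≤ lam a)
    (h2 : ∀ a : Fin n, i + 1 ≤ a + lam a) :
    ∃ F ∈ GS q (ExteriorAlgebra K (Fin n → K)) ((min n (i + 1) + 1) / 2),
      ∀ m, SS (io (fv q lam)) n (m + n) = F (m + i + 1) := by
  rcases Nat.le_total (i + 1) n with hn | hn
  · obtain ⟨t, ht⟩ : ∃ t, n = t + (i + 1) := ⟨n - (i + 1), by omega⟩
    have e1 : (fun x => io (fv q lam) (t + x)) = fun x => q ^ t • io (gv q i lam) x := by
      funext x
      unfold io
      rw [← map_smul]
      congr 1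
      funext a
      rw [Pi.smul_apply, smul_eq_mul]
      unfold fv gv
      have h3 := h1 a
      have h4 := h2 a
      obtain ⟨κ, hκ⟩ : ∃ κ, lam a = κ + 1 := ⟨lam a - 1, by omega⟩
      rw [hκ, Nat.add_sub_cancel,
        rowP_GF (i := i) hq0 hq (x := x) (l := t + x) a.2 (by omega) (by omega), pow_add, mul_assoc]
    refine ⟨fun b => ∑ c ∈ range (n + 1), ((q ^ t) ^ c • SS (io (gv q i lam)) c b) *
      SS (io (fv q lam)) (n - c) t, ?_, fun m => ?_⟩
    · have e2 : (fun b => ∑ c ∈ range (n + 1), ((q ^ t) ^ c • SS (io (gv q i lam)) c b) *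
          SS (io (fv q lam)) (n - c) t) =
          ∑ c ∈ range (n + 1), ((q ^ t) ^ c • SS (io (gv q i lam)) c) *
            (fun _ => SS (io (fv q lam)) (n - c) t) := by
        funext b
        rw [Finset.sum_apply]
        rfl
      rw [e2]
      refine Submodule.sum_mem _ fun c _ => ?_
      by_cases hc : i + 1 ≤ c
      · have h3 := SS_mem hq (io_anti (gv q i lam)) (io_sq _) (gv_mem q i lam) c
        have h4 : (q ^ t) ^ c • SS (io (gv q i lam)) c ∈
            GS q (ExteriorAlgebra K (Fin n → K)) ((min n (i + 1) + 1) / 2) :=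
          Submodule.smul_mem _ _ (GS_mono (by omega) h3)
        have h5 := GS_mul h4 (GS_const (q := q) (SS (io (fv q lam)) (n - c) t))
        rw [Nat.add_zero] at h5
        exact h5
      · rw [SS_lt (io (fv q lam)) t (n - c) (by omega)]
        have h6 : ((q ^ t) ^ c • SS (io (gv q i lam)) c) *
            (fun _ : ℕ => (0 : ExteriorAlgebra K (Fin n → K))) = 0 := by
          funext b
          rw [Pi.mul_apply, mul_zero]
          rfl
        rw [h6]
        exact Submodule.zero_mem _
    · rw [show m + n = t + (m + i + 1) by omega, SS_add, e1]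
      refine sum_congr rfl fun c _ => ?_
      rw [SS_smul]
  · obtain ⟨d, hd⟩ : ∃ d, i + 1 = d + n := ⟨i + 1 - n, by omega⟩
    have e1 : (fun x => io (gv q i lam) (d + x)) = fun x => q ^ d • io (fv q lam) x := by
      funext x
      unfold io
      rw [← map_smul]
      congr 1
      funext a
      rw [Pi.smul_apply, smul_eq_mul]
      unfold fv gv
      have h3 := h1 a
      have h4 := h2 a
      obtain ⟨κ, hκ⟩ : ∃ κ, lam a = κ + 1 := ⟨lam a - 1, by omega⟩
      rw [hκ, Nat.add_sub_cancel,
        rowP_GF (i := i) hq0 hq (x := d + x) (l := x) a.2 (by omega) (by omega)]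
      ring
    have e2 : ∀ x < d, io (gv q i lam) x = 0 := by
      intro x hx
      unfold io
      have h5 : gv q i lam x = 0 := by
        funext a
        unfold gv
        have h3 := h1 a
        have h4 := h2 a
        have h6 := a.2
        rw [rowP_zero hq0 (by omega) (by omega), mul_zero]
        rfl
      rw [h5, map_zero]
    refine ⟨((q ^ d) ^ n)⁻¹ • SS (io (gv q i lam)) n, ?_, fun m => ?_⟩
    · have h3 := SS_mem hq (io_anti (gv q i lam)) (io_sq _) (gv_mem q i lam) n
      exact Submodule.smul_mem _ _ (GS_mono (by omega) h3)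
    · rw [Pi.smul_apply, show m + i + 1 = d + (m + n) by omega, SS_add (io (gv q i lam)) d (m + n) n,
        e1, sum_range_succ]
      have h3 : ∑ c ∈ range n, SS (fun x => q ^ d • io (fv q lam) x) c (m + n) *
          SS (io (gv q i lam)) (n - c) d = 0 := by
        refine sum_eq_zero fun c hc => ?_
        rw [mem_range] at hc
        rw [show n - c = (n - c - 1) + 1 by omega, SS_vanish _ _ _ e2, mul_zero]
      rw [h3, zero_add, Nat.sub_self, SS_zero, mul_one, SS_smul, smul_smul,
        inv_mul_cancel₀ (pow_ne_zero _ (pow_ne_zero _ hq0)), one_smul]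

/-- the volume functional -/
noncomputable def vol (K : Type*) [Field K] (n : ℕ) : ExteriorAlgebra K (Fin n → K) →ₗ[K] K :=
  ExteriorAlgebra.liftAlternating (R := K) (Pi.single n Matrix.detRowAlternating)

lemma vol_prod (v : Fin n → Fin n → K) :
    vol K n (List.ofFn fun c => ExteriorAlgebra.ι K (v c)).prod = Matrix.det (Matrix.of v) := by
  have h1 := ExteriorAlgebra.liftAlternating_apply_ιMulti (R := K) (M := Fin n → K) (N := K)
    (Pi.single n Matrix.detRowAlternating) v
  rw [ExteriorAlgebra.ιMulti_apply] at h1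
  unfold vol
  rw [h1, Pi.single_eq_same]
  rfl

/-- the alternating sum is the volume of the sum over all labels -/
theorem Psi_vol (q : K) (m : ℕ) (lam : Fin n → ℕ) :
    Psi q n m lam = vol K n (SS (io (fv q lam)) n (m + n)) := by
  classical
  rw [SS_eq, map_sum]
  unfold Psi
  refine sum_congr ?_ fun l _ => ?_
  · ext l
    rw [mem_filter, mem_filter]
    refine and_congr Iff.rfl ?_
    constructor
    · intro h a c hac
      exact h hac
    · intro h a c hac
      exact h a c hac
  · unfold io
    rw [vol_prod (fun c => fv q lam (l c)), ← Matrix.det_transpose]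
    have h1 : (Matrix.of fun c => fv q lam (l c)) =
        Matrix.of (fun b a => (fun b : Fin n => q ^ (l b : ℕ)) b *
          (Matrix.of fun a b : Fin n => GF q (lam a) (n - 1 - a) (l b)).transpose b a) := by
      refine Matrix.ext fun b a => ?_
      rw [Matrix.of_apply, Matrix.of_apply, Matrix.transpose_apply, Matrix.of_apply]
      rfl
    rw [h1, Matrix.det_mul_column, prod_pow_eq_pow_sum]

include hq0 hq in
/-- the alternating sum as a polynomial in the window variable -/
theorem Psi_dvd {i : ℕ} {lam : Fin n → ℕ} (h1 : ∀ a, 1 ≤ lam a)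
    (h2 : ∀ a : Fin n, i + 1 ≤ a + lam a) :
    ∃ P : K[X], ∀ m, Psi q n m lam =
      (1 - q ^ (m + i + 1)) ^ ((min n (i + 1) + 1) / 2) * P.eval (q ^ (m + i + 1)) := by
  obtain ⟨F, hF, hF2⟩ := SS_full hq0 hq h1 h2
  obtain ⟨P, hP⟩ := GS_apply (vol K n) hF
  exact ⟨P, fun m => by rw [Psi_vol, hF2, hP]⟩

end ext

end Pool.Agent.GaussPoset.Yg
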